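import Mathlib

/-!
# Concentration for random permutations (Chatterjee's inequality)

For a matrix `a` with entries in `[0, 1]` and a random permutation `π` the sum of the entries
`a i (π i)` is concentrated around its mean `μ`, with a variance proxy which is a multiple of `μ`.
-/

set_option autoImplicit false
set_option linter.unusedSectionVars false
set_option linter.unusedVariables false

namespace Pool.Agent.J4.H80.LL

open Finset

variable {α : Type} [Fintype α] [DecidableEq α]

/-- the sum along a permutation -/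
def X (a : α → α → ℝ) (π : Equiv.Perm α) : ℝ := ∑ i, a i (π i)

/-- the mean -/
noncomputable def mu (a : α → α → ℝ) : ℝ := (∑ i, ∑ j, a i j) / Fintype.card α

theorem X_nonneg {a : α → α → ℝ} (h0 : ∀ i j, 0 ≤ a i j) (π : Equiv.Perm α) : 0 ≤ X a π :=
  Finset.sum_nonneg fun i _ => h0 _ _

theorem mu_nonneg {a : α → α → ℝ} (h0 : ∀ i j, 0 ≤ a i j) : 0 ≤ mu a :=
  div_nonneg (Finset.sum_nonneg fun i _ => Finset.sum_nonneg fun j _ => h0 _ _) (by positivity)

theorem mu_mul {a : α → α → ℝ} : (Fintype.card α : ℝ) * mu a = ∑ i, ∑ j, a i j := by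
  unfold mu
  by_cases h : Fintype.card α = 0
  · have : IsEmpty α := Fintype.card_eq_zero_iff.1 h
    simp
  · field_simp

/-- the effect of a transposition -/
theorem X_swap (a : α → α → ℝ) (π : Equiv.Perm α) (i j : α) :
    X a π - X a (π * Equiv.swap i j) = a i (π i) + a j (π j) - a i (π j) - a j (π i) := by
  by_cases hij : i = j
  · subst hij
    rw [Equiv.swap_self, show π * Equiv.refl α = π from mul_one π]
    ring
  unfold X
  rw [← Finset.sum_sub_distrib]
  rw [← Finset.sum_subset (Finset.subset_univ ({i, j} : Finset α))]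
  · rw [Finset.sum_pair hij]
    simp only [Equiv.Perm.mul_apply, Equiv.swap_apply_left, Equiv.swap_apply_right]
    ring
  · intro x _ hx
    simp only [Finset.mem_insert, Finset.mem_singleton, not_or] at hx
    rw [Equiv.Perm.mul_apply, Equiv.swap_apply_of_ne_of_ne hx.1 hx.2, sub_self]

/-- first sum over the transpositions -/
theorem sum_diff (a : α → α → ℝ) (π : Equiv.Perm α) :
    ∑ i, ∑ j, (X a π - X a (π * Equiv.swap i j)) = 2 * Fintype.card α * (X a π - mu a) := by
  have h1 : ∀ i, ∑ j, a i (π j) = ∑ j, a i j := fun i => Equiv.sum_comp π (a i)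
  have h2 : ∑ i, ∑ j, a j (π i) = ∑ i, ∑ j, a i j := by
    rw [Finset.sum_comm]
    exact Finset.sum_congr rfl fun i _ => h1 i
  simp only [X_swap, Finset.sum_sub_distrib, Finset.sum_add_distrib, h2, h1]
  simp only [Finset.sum_const, Finset.card_univ, nsmul_eq_mul]
  rw [← Finset.mul_sum]
  have h3 := mu_mul (a := a)
  rw [show ∑ i, a i (π i) = X a π from rfl]
  linarith

/-- second sum over the transpositions -/
theorem sum_sq (a : α → α → ℝ) (h0 : ∀ i j, 0 ≤ a i j) (h1 : ∀ i j, a i j ≤ 1)
    (π : Equiv.Perm α) :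
    ∑ i, ∑ j, (X a π - X a (π * Equiv.swap i j)) ^ 2 ≤
      4 * Fintype.card α * (X a π + mu a) := by
  have e1 : ∀ i, ∑ j, a i (π j) = ∑ j, a i j := fun i => Equiv.sum_comp π (a i)
  have e2 : ∑ i, ∑ j, a j (π i) = ∑ i, ∑ j, a i j := by
    rw [Finset.sum_comm]
    exact Finset.sum_congr rfl fun i _ => e1 i
  have h3 : ∀ i j, (X a π - X a (π * Equiv.swap i j)) ^ 2 ≤
      2 * (a i (π i) + a j (π j) + a i (π j) + a j (π i)) := by
    intro i j
    rw [X_swap]
    have q1 := h0 i (π i)
    have q2 := h0 j (π j)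
    have q3 := h0 i (π j)
    have q4 := h0 j (π i)
    have r1 := h1 i (π i)
    have r2 := h1 j (π j)
    have r3 := h1 i (π j)
    have r4 := h1 j (π i)
    set u := a i (π i) + a j (π j)
    set v := a i (π j) + a j (π i)
    have hu0 : 0 ≤ u := by positivity
    have hv0 : 0 ≤ v := by positivity
    have hu2 : u ≤ 2 := by simp only [u]; linarith
    have hv2 : v ≤ 2 := by simp only [v]; linarith
    have e : a i (π i) + a j (π j) - a i (π j) - a j (π i) = u - v := by simp only [u, v]; ring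
    have e' : a i (π i) + a j (π j) + a i (π j) + a j (π i) = u + v := by simp only [u, v]; ring
    rw [e, e']
    nlinarith [mul_nonneg hu0 (sub_nonneg.2 hu2), mul_nonneg hv0 (sub_nonneg.2 hv2),
      mul_nonneg hu0 hv0]
  calc ∑ i, ∑ j, (X a π - X a (π * Equiv.swap i j)) ^ 2
      ≤ ∑ i, ∑ j, 2 * (a i (π i) + a j (π j) + a i (π j) + a j (π i)) :=
        Finset.sum_le_sum fun i _ => Finset.sum_le_sum fun j _ => h3 i j
    _ = 4 * Fintype.card α * (X a π + mu a) := by
        simp only [← Finset.mul_sum, Finset.sum_add_distrib, e2, e1]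
        simp only [Finset.sum_const, Finset.card_univ, nsmul_eq_mul]
        rw [← Finset.mul_sum]
        have h3 := mu_mul (a := a)
        rw [show ∑ i, a i (π i) = X a π from rfl]
        linarith

/-- an elementary inequality -/
theorem exp_ineq (x y : ℝ) : (x - y) * (Real.exp x - Real.exp y) ≤
    (x - y) ^ 2 * ((Real.exp x + Real.exp y) / 2) := by
  wlog h : y ≤ x generalizing x y
  · have := this y x (by linarith)
    nlinarith
  have h0 : 0 ≤ x - y := by linarith
  have key : Real.exp x - Real.exp y ≤ (x - y) * ((Real.exp x + Real.exp y) / 2) := by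
    have e1 : Real.exp x = Real.exp y * Real.exp (x - y) := by
      rw [← Real.exp_add]; congr 1; ring
    set t := x - y with ht
    have h2 : Real.exp t - 1 ≤ t * ((Real.exp t + 1) / 2) := by
      have hmono : MonotoneOn (fun s : ℝ => s * ((Real.exp s + 1) / 2) - (Real.exp s - 1))
          (Set.Ici 0) := by
        apply monotoneOn_of_deriv_nonneg (convex_Ici 0)
        · fun_prop
        · fun_prop
        · intro s hs
          have hs0 : 0 < s := by simpa using hs
          have hd : deriv (fun s : ℝ => s * ((Real.exp s + 1) / 2) - (Real.exp s - 1)) s =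
              1 * ((Real.exp s + 1) / 2) + s * (Real.exp s / 2) - Real.exp s := by
            apply HasDerivAt.deriv
            exact ((hasDerivAt_id' s).mul (((Real.hasDerivAt_exp s).add_const 1).div_const 2)).sub
              ((Real.hasDerivAt_exp s).sub_const 1)
          rw [hd]
          have h3 : 1 - s ≤ Real.exp (-s) := by
            have := Real.add_one_le_exp (-s); linarith
          have h4 : Real.exp (-s) * Real.exp s = 1 := by rw [← Real.exp_add]; simp
          have h5 : (1 - s) * Real.exp s ≤ 1 := by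
            have := mul_le_mul_of_nonneg_right h3 (Real.exp_pos s).le
            linarith
          nlinarith
      have h6 := hmono (Set.mem_Ici.2 le_rfl) (Set.mem_Ici.2 h0) h0
      simp at h6
      linarith
    rw [e1]
    have h3 := Real.exp_pos y
    nlinarith
  nlinarith

/-- the exchangeable pair -/
theorem exch (a : α → α → ℝ) (θ : ℝ) :
    ∑ π : Equiv.Perm α, ∑ i, ∑ j, (X a π - X a (π * Equiv.swap i j)) * Real.exp (θ * X a π) =
    1 / 2 * ∑ π : Equiv.Perm α, ∑ i, ∑ j, (X a π - X a (π * Equiv.swap i j)) *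
      (Real.exp (θ * X a π) - Real.exp (θ * X a (π * Equiv.swap i j))) := by
  have h1 : ∑ π : Equiv.Perm α, ∑ i, ∑ j, (X a π - X a (π * Equiv.swap i j)) *
      Real.exp (θ * X a π) = - ∑ π : Equiv.Perm α, ∑ i, ∑ j,
        (X a π - X a (π * Equiv.swap i j)) * Real.exp (θ * X a (π * Equiv.swap i j)) := by
    rw [← Finset.sum_neg_distrib]
    rw [Finset.sum_comm]
    conv_rhs => rw [show (∑ π : Equiv.Perm α, -∑ i, ∑ j, (X a π - X a (π * Equiv.swap i j)) *
      Real.exp (θ * X a (π * Equiv.swap i j))) = ∑ i, ∑ π : Equiv.Perm α, -∑ j,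
        (X a π - X a (π * Equiv.swap i j)) * Real.exp (θ * X a (π * Equiv.swap i j)) from by
        simp only [← Finset.sum_neg_distrib]; rw [Finset.sum_comm]]
    refine Finset.sum_congr rfl fun i _ => ?_
    simp only [← Finset.sum_neg_distrib]
    rw [Finset.sum_comm]
    conv_rhs => rw [Finset.sum_comm]
    refine Finset.sum_congr rfl fun j _ => ?_
    rw [← Equiv.sum_comp (Equiv.mulRight (Equiv.swap i j))]
    refine Finset.sum_congr rfl fun π _ => ?_
    simp only [Equiv.coe_mulRight, mul_assoc, Equiv.swap_mul_self, mul_one]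
    ring
  have h2 : ∑ π : Equiv.Perm α, ∑ i, ∑ j, (X a π - X a (π * Equiv.swap i j)) *
      (Real.exp (θ * X a π) - Real.exp (θ * X a (π * Equiv.swap i j))) =
      ∑ π : Equiv.Perm α, ∑ i, ∑ j, (X a π - X a (π * Equiv.swap i j)) * Real.exp (θ * X a π) -
      ∑ π : Equiv.Perm α, ∑ i, ∑ j,
        (X a π - X a (π * Equiv.swap i j)) * Real.exp (θ * X a (π * Equiv.swap i j)) := by
    simp only [mul_sub, Finset.sum_sub_distrib]
  rw [h2]
  linarith

/-- the main inequality -/
theorem main_ineq (a : α → α → ℝ) (h0 : ∀ i j, 0 ≤ a i j) (h1 : ∀ i j, a i j ≤ 1) [Nonempty α]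
    (θ : ℝ) : |∑ π : Equiv.Perm α, (X a π - mu a) * Real.exp (θ * X a π)| ≤
      |θ| * ∑ π : Equiv.Perm α, (X a π + mu a) * Real.exp (θ * X a π) := by
  have hn : (0 : ℝ) < Fintype.card α := by exact_mod_cast Fintype.card_pos
  have e1 : ∑ π : Equiv.Perm α, ∑ i, ∑ j, (X a π - X a (π * Equiv.swap i j)) *
      Real.exp (θ * X a π) =
      2 * Fintype.card α * ∑ π : Equiv.Perm α, (X a π - mu a) * Real.exp (θ * X a π) := by
    rw [Finset.mul_sum]
    refine Finset.sum_congr rfl fun π _ => ?_
    simp only [← Finset.sum_mul]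
    rw [sum_diff]
    ring
  have e2 := exch a θ
  rw [e1] at e2
  -- bound
  have h2 : |∑ π : Equiv.Perm α, ∑ i, ∑ j, (X a π - X a (π * Equiv.swap i j)) *
      (Real.exp (θ * X a π) - Real.exp (θ * X a (π * Equiv.swap i j)))| ≤
      |θ| * ∑ π : Equiv.Perm α, ∑ i, ∑ j, (X a π - X a (π * Equiv.swap i j)) ^ 2 *
        ((Real.exp (θ * X a π) + Real.exp (θ * X a (π * Equiv.swap i j))) / 2) := by
    refine (Finset.abs_sum_le_sum_abs _ _).trans ?_
    rw [Finset.mul_sum]
    refine Finset.sum_le_sum fun π _ => ?_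
    refine (Finset.abs_sum_le_sum_abs _ _).trans ?_
    rw [Finset.mul_sum]
    refine Finset.sum_le_sum fun i _ => ?_
    refine (Finset.abs_sum_le_sum_abs _ _).trans ?_
    rw [Finset.mul_sum]
    refine Finset.sum_le_sum fun j _ => ?_
    set x := X a π
    set y := X a (π * Equiv.swap i j)
    have h3 := exp_ineq (θ * x) (θ * y)
    have h4 : (θ * x - θ * y) * (Real.exp (θ * x) - Real.exp (θ * y)) =
        θ * ((x - y) * (Real.exp (θ * x) - Real.exp (θ * y))) := by ring
    have h5 : 0 ≤ (θ * x - θ * y) * (Real.exp (θ * x) - Real.exp (θ * y)) := by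
      rcases le_total (θ * y) (θ * x) with h | h
      · exact mul_nonneg (by linarith) (by linarith [Real.exp_le_exp.2 h])
      · exact mul_nonneg_of_nonpos_of_nonpos (by linarith) (by linarith [Real.exp_le_exp.2 h])
    rcases eq_or_ne θ 0 with h6 | h6
    · subst h6
      simp
    have h7 : 0 < |θ| := abs_pos.2 h6
    have h8 : |θ| * |(x - y) * (Real.exp (θ * x) - Real.exp (θ * y))| =
        (θ * x - θ * y) * (Real.exp (θ * x) - Real.exp (θ * y)) := by
      rw [← abs_mul, ← h4, abs_of_nonneg h5]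
    have h9 : |θ| * |(x - y) * (Real.exp (θ * x) - Real.exp (θ * y))| ≤
        |θ| * (|θ| * ((x - y) ^ 2 * ((Real.exp (θ * x) + Real.exp (θ * y)) / 2))) := by
      rw [h8]
      refine h3.trans (le_of_eq ?_)
      have : |θ| * |θ| = θ ^ 2 := by rw [abs_mul_abs_self]; ring
      rw [← mul_assoc, this]
      ring
    exact le_of_mul_le_mul_left h9 h7
  have h3 : ∑ π : Equiv.Perm α, ∑ i, ∑ j, (X a π - X a (π * Equiv.swap i j)) ^ 2 *
        ((Real.exp (θ * X a π) + Real.exp (θ * X a (π * Equiv.swap i j))) / 2) =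
      ∑ π : Equiv.Perm α, ∑ i, ∑ j, (X a π - X a (π * Equiv.swap i j)) ^ 2 *
        Real.exp (θ * X a π) := by
    have h4 : ∑ π : Equiv.Perm α, ∑ i, ∑ j, (X a π - X a (π * Equiv.swap i j)) ^ 2 *
        Real.exp (θ * X a (π * Equiv.swap i j)) =
      ∑ π : Equiv.Perm α, ∑ i, ∑ j, (X a π - X a (π * Equiv.swap i j)) ^ 2 *
        Real.exp (θ * X a π) := by
      rw [Finset.sum_comm]
      conv_rhs => rw [Finset.sum_comm]
      refine Finset.sum_congr rfl fun i _ => ?_
      rw [Finset.sum_comm]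
      conv_rhs => rw [Finset.sum_comm]
      refine Finset.sum_congr rfl fun j _ => ?_
      rw [← Equiv.sum_comp (Equiv.mulRight (Equiv.swap i j))]
      refine Finset.sum_congr rfl fun π _ => ?_
      simp only [Equiv.coe_mulRight, mul_assoc, Equiv.swap_mul_self, mul_one]
      ring
    have h5 : ∀ (π : Equiv.Perm α) (i j : α), (X a π - X a (π * Equiv.swap i j)) ^ 2 *
        ((Real.exp (θ * X a π) + Real.exp (θ * X a (π * Equiv.swap i j))) / 2) =
        (1 / 2) * ((X a π - X a (π * Equiv.swap i j)) ^ 2 * Real.exp (θ * X a π)) +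
        (1 / 2) * ((X a π - X a (π * Equiv.swap i j)) ^ 2 *
          Real.exp (θ * X a (π * Equiv.swap i j))) := by
      intro π i j
      ring
    simp only [h5, Finset.sum_add_distrib, ← Finset.mul_sum]
    rw [h4]
    ring
  have h4 : ∑ π : Equiv.Perm α, ∑ i, ∑ j, (X a π - X a (π * Equiv.swap i j)) ^ 2 *
        Real.exp (θ * X a π) ≤
      4 * Fintype.card α * ∑ π : Equiv.Perm α, (X a π + mu a) * Real.exp (θ * X a π) := by
    rw [Finset.mul_sum]
    refine Finset.sum_le_sum fun π _ => ?_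
    simp only [← Finset.sum_mul]
    have := mul_le_mul_of_nonneg_right (sum_sq a h0 h1 π) (Real.exp_pos (θ * X a π)).le
    linarith
  have h5 : 2 * (Fintype.card α : ℝ) *
      |∑ π : Equiv.Perm α, (X a π - mu a) * Real.exp (θ * X a π)| ≤
      1 / 2 * (|θ| * (4 * Fintype.card α *
        ∑ π : Equiv.Perm α, (X a π + mu a) * Real.exp (θ * X a π))) := by
    have h6 : 2 * (Fintype.card α : ℝ) *
        |∑ π : Equiv.Perm α, (X a π - mu a) * Real.exp (θ * X a π)| =
        |2 * (Fintype.card α : ℝ) *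
          ∑ π : Equiv.Perm α, (X a π - mu a) * Real.exp (θ * X a π)| := by
      rw [abs_mul, abs_of_nonneg (by positivity : (0 : ℝ) ≤ 2 * Fintype.card α)]
    rw [h6, e2, abs_mul, abs_of_nonneg (by norm_num : (0 : ℝ) ≤ 1 / 2)]
    refine mul_le_mul_of_nonneg_left (h2.trans ?_) (by norm_num)
    rw [h3]
    exact mul_le_mul_of_nonneg_left h4 (abs_nonneg _)
  have h6 : 2 * (Fintype.card α : ℝ) *
      |∑ π : Equiv.Perm α, (X a π - mu a) * Real.exp (θ * X a π)| ≤
      2 * (Fintype.card α : ℝ) * (|θ| *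
        ∑ π : Equiv.Perm α, (X a π + mu a) * Real.exp (θ * X a π)) := by
    refine h5.trans (le_of_eq ?_)
    ring
  exact le_of_mul_le_mul_left h6 (by positivity)

/-- exponential moments, lower tail -/
theorem mgf_low (a : α → α → ℝ) (h0 : ∀ i j, 0 ≤ a i j) (h1 : ∀ i j, a i j ≤ 1) [Nonempty α]
    (θ : ℝ) (hθ : 0 ≤ θ) : ∑ π : Equiv.Perm α, Real.exp (-θ * (X a π - mu a)) ≤
      Fintype.card (Equiv.Perm α) * Real.exp (mu a * θ ^ 2) := by
  have hmu := mu_nonneg h0
  have hd : ∀ t : ℝ, HasDerivAt (fun t : ℝ => ∑ π : Equiv.Perm α, Real.exp (-t * (X a π - mu a)))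
      (∑ π : Equiv.Perm α, Real.exp (-t * (X a π - mu a)) * (-(X a π - mu a))) t := by
    intro t
    apply HasDerivAt.fun_sum
    intro π _
    have h2 : HasDerivAt (fun t : ℝ => -t * (X a π - mu a)) (-(X a π - mu a)) t := by
      have := ((hasDerivAt_id' t).neg).mul_const (X a π - mu a)
      simpa using this
    exact h2.exp
  have hd2 : ∀ t : ℝ, HasDerivAt (fun t : ℝ => Real.exp (-(mu a * t ^ 2)))
      (Real.exp (-(mu a * t ^ 2)) * (-(mu a * (2 * t)))) t := by
    intro t
    have h2 : HasDerivAt (fun t : ℝ => -(mu a * t ^ 2)) (-(mu a * (2 * t))) t := by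
      have := ((hasDerivAt_pow 2 t).const_mul (mu a)).neg
      refine this.congr_deriv ?_
      simp
    exact h2.exp
  have hanti : AntitoneOn (fun t : ℝ => (∑ π : Equiv.Perm α, Real.exp (-t * (X a π - mu a))) *
      Real.exp (-(mu a * t ^ 2))) (Set.Ici 0) := by
    apply antitoneOn_of_deriv_nonpos (convex_Ici 0)
    · exact fun t _ => ((hd t).mul (hd2 t)).continuousAt.continuousWithinAt
    · exact fun t _ => ((hd t).mul (hd2 t)).differentiableAt.differentiableWithinAt
    · intro t ht
      have ht0 : 0 < t := by simpa using ht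
      have e1 := ((hd t).mul (hd2 t)).deriv
      change deriv ((fun t : ℝ => ∑ π : Equiv.Perm α, Real.exp (-t * (X a π - mu a))) *
        fun t : ℝ => Real.exp (-(mu a * t ^ 2))) t ≤ 0
      rw [e1]
      set m := ∑ π : Equiv.Perm α, Real.exp (-t * (X a π - mu a)) with hm
      set m' := ∑ π : Equiv.Perm α, Real.exp (-t * (X a π - mu a)) * (-(X a π - mu a)) with hm'
      have hm0 : 0 ≤ m := Finset.sum_nonneg fun π _ => (Real.exp_pos _).le
      have h3 := main_ineq a h0 h1 (-t)
      rw [abs_neg, abs_of_pos ht0] at h3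
      have h4 := neg_le_abs (∑ π : Equiv.Perm α, (X a π - mu a) * Real.exp (-t * X a π))
      have h5 : ∀ π : Equiv.Perm α, Real.exp (-t * (X a π - mu a)) =
          Real.exp (-t * X a π) * Real.exp (t * mu a) := by
        intro π
        rw [← Real.exp_add]
        congr 1
        ring
      have h6 : m' = -(∑ π : Equiv.Perm α, (X a π - mu a) * Real.exp (-t * X a π)) *
          Real.exp (t * mu a) := by
        rw [hm', ← Finset.sum_neg_distrib, Finset.sum_mul]
        refine Finset.sum_congr rfl fun π _ => ?_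
        rw [h5]
        ring
      have h7 : -m' + 2 * mu a * m = (∑ π : Equiv.Perm α, (X a π + mu a) *
          Real.exp (-t * X a π)) * Real.exp (t * mu a) := by
        rw [hm', hm, ← Finset.sum_neg_distrib, Finset.mul_sum, ← Finset.sum_add_distrib,
          Finset.sum_mul]
        refine Finset.sum_congr rfl fun π _ => ?_
        rw [h5]
        ring
      have h8 : m' ≤ t * (-m' + 2 * mu a * m) := by
        rw [h7, h6, ← mul_assoc]
        exact mul_le_mul_of_nonneg_right (h4.trans h3) (Real.exp_pos _).le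
      have h9 : m' ≤ 2 * mu a * t * m := by
        rcases le_or_gt m' 0 with h | h
        · exact h.trans (by positivity)
        · nlinarith
      have h10 := Real.exp_pos (-(mu a * t ^ 2))
      have h11 : m' * Real.exp (-(mu a * t ^ 2)) + m * (Real.exp (-(mu a * t ^ 2)) *
          -(mu a * (2 * t))) = (m' - 2 * mu a * t * m) * Real.exp (-(mu a * t ^ 2)) := by ring
      rw [h11]
      exact mul_nonpos_of_nonpos_of_nonneg (by linarith) h10.le
  have h2 := hanti (Set.mem_Ici.2 le_rfl) (Set.mem_Ici.2 hθ) hθ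
  have h3 : (∑ π : Equiv.Perm α, Real.exp (-(0 : ℝ) * (X a π - mu a))) *
      Real.exp (-(mu a * (0 : ℝ) ^ 2)) = Fintype.card (Equiv.Perm α) := by
    simp
  simp only at h2
  rw [h3] at h2
  have h4 : Real.exp (-(mu a * θ ^ 2)) * Real.exp (mu a * θ ^ 2) = 1 := by
    rw [← Real.exp_add]; simp
  calc ∑ π : Equiv.Perm α, Real.exp (-θ * (X a π - mu a))
      = (∑ π : Equiv.Perm α, Real.exp (-θ * (X a π - mu a))) *
        (Real.exp (-(mu a * θ ^ 2)) * Real.exp (mu a * θ ^ 2)) := by rw [h4, mul_one]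
    _ = ((∑ π : Equiv.Perm α, Real.exp (-θ * (X a π - mu a))) *
        Real.exp (-(mu a * θ ^ 2))) * Real.exp (mu a * θ ^ 2) := by ring
    _ ≤ _ := mul_le_mul_of_nonneg_right h2 (Real.exp_pos _).le

/-- exponential moments, upper tail -/
theorem mgf_up (a : α → α → ℝ) (h0 : ∀ i j, 0 ≤ a i j) (h1 : ∀ i j, a i j ≤ 1) [Nonempty α]
    (θ : ℝ) (hθ : 0 ≤ θ) (hθ1 : θ ≤ 1 / 2) :
    ∑ π : Equiv.Perm α, Real.exp (θ * (X a π - mu a)) ≤
      Fintype.card (Equiv.Perm α) * Real.exp (2 * mu a * θ ^ 2) := by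
  have hmu := mu_nonneg h0
  have hd : ∀ t : ℝ, HasDerivAt (fun t : ℝ => ∑ π : Equiv.Perm α, Real.exp (t * (X a π - mu a)))
      (∑ π : Equiv.Perm α, Real.exp (t * (X a π - mu a)) * (X a π - mu a)) t := by
    intro t
    apply HasDerivAt.fun_sum
    intro π _
    have h2 : HasDerivAt (fun t : ℝ => t * (X a π - mu a)) (X a π - mu a) t := by
      have := (hasDerivAt_id' t).mul_const (X a π - mu a)
      simpa using this
    exact h2.exp
  have hd2 : ∀ t : ℝ, HasDerivAt (fun t : ℝ => Real.exp (-(2 * mu a * t ^ 2)))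
      (Real.exp (-(2 * mu a * t ^ 2)) * (-(2 * mu a * (2 * t)))) t := by
    intro t
    have h2 : HasDerivAt (fun t : ℝ => -(2 * mu a * t ^ 2)) (-(2 * mu a * (2 * t))) t := by
      have := ((hasDerivAt_pow 2 t).const_mul (2 * mu a)).neg
      refine this.congr_deriv ?_
      simp
    exact h2.exp
  have hanti : AntitoneOn (fun t : ℝ => (∑ π : Equiv.Perm α, Real.exp (t * (X a π - mu a))) *
      Real.exp (-(2 * mu a * t ^ 2))) (Set.Icc 0 (1 / 2)) := by
    apply antitoneOn_of_deriv_nonpos (convex_Icc 0 (1 / 2))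
    · exact fun t _ => ((hd t).mul (hd2 t)).continuousAt.continuousWithinAt
    · exact fun t _ => ((hd t).mul (hd2 t)).differentiableAt.differentiableWithinAt
    · intro t ht
      rw [interior_Icc] at ht
      have ht0 : 0 < t := ht.1
      have ht1 : t < 1 / 2 := ht.2
      have e1 := ((hd t).mul (hd2 t)).deriv
      change deriv ((fun t : ℝ => ∑ π : Equiv.Perm α, Real.exp (t * (X a π - mu a))) *
        fun t : ℝ => Real.exp (-(2 * mu a * t ^ 2))) t ≤ 0
      rw [e1]
      set m := ∑ π : Equiv.Perm α, Real.exp (t * (X a π - mu a)) with hm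
      set m' := ∑ π : Equiv.Perm α, Real.exp (t * (X a π - mu a)) * (X a π - mu a) with hm'
      have hm0 : 0 ≤ m := Finset.sum_nonneg fun π _ => (Real.exp_pos _).le
      have h3 := main_ineq a h0 h1 t
      rw [abs_of_pos ht0] at h3
      have h4 := le_abs_self (∑ π : Equiv.Perm α, (X a π - mu a) * Real.exp (t * X a π))
      have h5 : ∀ π : Equiv.Perm α, Real.exp (t * (X a π - mu a)) =
          Real.exp (t * X a π) * Real.exp (-(t * mu a)) := by
        intro π
        rw [← Real.exp_add]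
        congr 1
        ring
      have h6 : m' = (∑ π : Equiv.Perm α, (X a π - mu a) * Real.exp (t * X a π)) *
          Real.exp (-(t * mu a)) := by
        rw [hm', Finset.sum_mul]
        refine Finset.sum_congr rfl fun π _ => ?_
        rw [h5]
        ring
      have h7 : m' + 2 * mu a * m = (∑ π : Equiv.Perm α, (X a π + mu a) *
          Real.exp (t * X a π)) * Real.exp (-(t * mu a)) := by
        rw [hm', hm, Finset.mul_sum, ← Finset.sum_add_distrib, Finset.sum_mul]
        refine Finset.sum_congr rfl fun π _ => ?_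
        rw [h5]
        ring
      have h8 : m' ≤ t * (m' + 2 * mu a * m) := by
        rw [h7, h6, ← mul_assoc]
        exact mul_le_mul_of_nonneg_right (h4.trans h3) (Real.exp_pos _).le
      have h9 : m' ≤ 4 * mu a * t * m := by
        rcases le_or_gt m' 0 with h | h
        · exact h.trans (by positivity)
        · nlinarith
      have h10 := Real.exp_pos (-(2 * mu a * t ^ 2))
      have h11 : m' * Real.exp (-(2 * mu a * t ^ 2)) + m * (Real.exp (-(2 * mu a * t ^ 2)) *
          -(2 * mu a * (2 * t))) = (m' - 4 * mu a * t * m) * Real.exp (-(2 * mu a * t ^ 2)) := by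
        ring
      rw [h11]
      exact mul_nonpos_of_nonpos_of_nonneg (by linarith) h10.le
  have h2 := hanti (Set.mem_Icc.2 ⟨le_rfl, by norm_num⟩) (Set.mem_Icc.2 ⟨hθ, hθ1⟩) hθ
  have h3 : (∑ π : Equiv.Perm α, Real.exp ((0 : ℝ) * (X a π - mu a))) *
      Real.exp (-(2 * mu a * (0 : ℝ) ^ 2)) = Fintype.card (Equiv.Perm α) := by
    simp
  simp only at h2
  rw [h3] at h2
  have h4 : Real.exp (-(2 * mu a * θ ^ 2)) * Real.exp (2 * mu a * θ ^ 2) = 1 := by
    rw [← Real.exp_add]; simp
  calc ∑ π : Equiv.Perm α, Real.exp (θ * (X a π - mu a))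
      = (∑ π : Equiv.Perm α, Real.exp (θ * (X a π - mu a))) *
        (Real.exp (-(2 * mu a * θ ^ 2)) * Real.exp (2 * mu a * θ ^ 2)) := by rw [h4, mul_one]
    _ = ((∑ π : Equiv.Perm α, Real.exp (θ * (X a π - mu a))) *
        Real.exp (-(2 * mu a * θ ^ 2))) * Real.exp (2 * mu a * θ ^ 2) := by ring
    _ ≤ _ := mul_le_mul_of_nonneg_right h2 (Real.exp_pos _).le

/-- lower tail -/
theorem tail_low (a : α → α → ℝ) (h0 : ∀ i j, 0 ≤ a i j) (h1 : ∀ i j, a i j ≤ 1) [Nonempty α]
    (θ x : ℝ) (hθ : 0 ≤ θ) :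
    ((Finset.univ.filter (fun π : Equiv.Perm α => X a π ≤ x)).card : ℝ) ≤
      Fintype.card (Equiv.Perm α) * Real.exp (mu a * θ ^ 2 + θ * (x - mu a)) := by
  have h2 := mgf_low a h0 h1 θ hθ
  have h3 : ((Finset.univ.filter (fun π : Equiv.Perm α => X a π ≤ x)).card : ℝ) *
      Real.exp (-θ * (x - mu a)) ≤ ∑ π : Equiv.Perm α, Real.exp (-θ * (X a π - mu a)) := by
    rw [← nsmul_eq_mul, ← Finset.sum_const]
    refine (Finset.sum_le_sum (g := fun π => Real.exp (-θ * (X a π - mu a))) ?_).trans
      (Finset.sum_le_sum_of_subset_of_nonneg (Finset.filter_subset _ _)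
        fun π _ _ => (Real.exp_pos _).le)
    intro π hπ
    rw [Finset.mem_filter] at hπ
    apply Real.exp_le_exp.2
    nlinarith [hπ.2]
  have h4 := h3.trans h2
  have h5 : Real.exp (-θ * (x - mu a)) * Real.exp (θ * (x - mu a)) = 1 := by
    rw [← Real.exp_add]; simp
  calc ((Finset.univ.filter (fun π : Equiv.Perm α => X a π ≤ x)).card : ℝ)
      = ((Finset.univ.filter (fun π : Equiv.Perm α => X a π ≤ x)).card : ℝ) *
        (Real.exp (-θ * (x - mu a)) * Real.exp (θ * (x - mu a))) := by rw [h5, mul_one]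
    _ = ((Finset.univ.filter (fun π : Equiv.Perm α => X a π ≤ x)).card *
        Real.exp (-θ * (x - mu a))) * Real.exp (θ * (x - mu a)) := by ring
    _ ≤ (Fintype.card (Equiv.Perm α) * Real.exp (mu a * θ ^ 2)) * Real.exp (θ * (x - mu a)) :=
        mul_le_mul_of_nonneg_right h4 (Real.exp_pos _).le
    _ = _ := by rw [mul_assoc, ← Real.exp_add]

/-- upper tail -/
theorem tail_up (a : α → α → ℝ) (h0 : ∀ i j, 0 ≤ a i j) (h1 : ∀ i j, a i j ≤ 1) [Nonempty α]
    (θ x : ℝ) (hθ : 0 ≤ θ) (hθ1 : θ ≤ 1 / 2) :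
    ((Finset.univ.filter (fun π : Equiv.Perm α => x ≤ X a π)).card : ℝ) ≤
      Fintype.card (Equiv.Perm α) * Real.exp (2 * mu a * θ ^ 2 - θ * (x - mu a)) := by
  have h2 := mgf_up a h0 h1 θ hθ hθ1
  have h3 : ((Finset.univ.filter (fun π : Equiv.Perm α => x ≤ X a π)).card : ℝ) *
      Real.exp (θ * (x - mu a)) ≤ ∑ π : Equiv.Perm α, Real.exp (θ * (X a π - mu a)) := by
    rw [← nsmul_eq_mul, ← Finset.sum_const]
    refine (Finset.sum_le_sum (g := fun π => Real.exp (θ * (X a π - mu a))) ?_).trans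
      (Finset.sum_le_sum_of_subset_of_nonneg (Finset.filter_subset _ _)
        fun π _ _ => (Real.exp_pos _).le)
    intro π hπ
    rw [Finset.mem_filter] at hπ
    apply Real.exp_le_exp.2
    nlinarith [hπ.2]
  have h4 := h3.trans h2
  have h5 : Real.exp (θ * (x - mu a)) * Real.exp (-(θ * (x - mu a))) = 1 := by
    rw [← Real.exp_add]; simp
  calc ((Finset.univ.filter (fun π : Equiv.Perm α => x ≤ X a π)).card : ℝ)
      = ((Finset.univ.filter (fun π : Equiv.Perm α => x ≤ X a π)).card : ℝ) *
        (Real.exp (θ * (x - mu a)) * Real.exp (-(θ * (x - mu a)))) := by rw [h5, mul_one]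
    _ = ((Finset.univ.filter (fun π : Equiv.Perm α => x ≤ X a π)).card *
        Real.exp (θ * (x - mu a))) * Real.exp (-(θ * (x - mu a))) := by ring
    _ ≤ (Fintype.card (Equiv.Perm α) * Real.exp (2 * mu a * θ ^ 2)) *
        Real.exp (-(θ * (x - mu a))) :=
        mul_le_mul_of_nonneg_right h4 (Real.exp_pos _).le
    _ = _ := by rw [mul_assoc, ← Real.exp_add]; rfl

end Pool.Agent.J4.H80.LL
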