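import Pool.Agent.J4.H80.LL.A
import Pool.Agent.H892.LEC.Few

/-!
# List edge colourings from locally diverse lists
-/

set_option autoImplicit false
set_option linter.unusedSectionVars false
set_option linter.unusedVariables false

namespace Pool.Agent.J4.H80.LL

open Finset Pool.Agent.H162R2.Sparse

variable {V : Type} [Fintype V]

/-- from a colouring of pairs of vertices to a colouring of edges -/
theorem edge_of_LC (G : SimpleGraph V) (bad : G.edgeSet → Prop) (M : G.edgeSet → Finset ℕ)
    (B : SimpleGraph V) (hB : ∀ x y, B.Adj x y ↔ ∃ h : G.Adj x y, bad ⟨s(x, y), h⟩)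
    (L : V → V → Finset ℕ) (hL : ∀ x y (h : G.Adj x y), L x y = M ⟨s(x, y), h⟩)
    (h : LC B L) : ∃ F : G.edgeSet → ℕ, (∀ e, bad e → F e ∈ M e) ∧
      ∀ e e', G.lineGraph.Adj e e' → bad e → bad e' → F e ≠ F e' := by
  classical
  obtain ⟨f, hf1, hf2, hf3⟩ := h
  have hex : ∀ e : G.edgeSet, ∃ p : V × V, s(p.1, p.2) = e.1 := by
    rintro ⟨e, he⟩
    induction e using Sym2.ind with
    | _ a b => exact ⟨(a, b), rfl⟩
  choose P hP using hex
  have hadjP : ∀ e : G.edgeSet, G.Adj (P e).1 (P e).2 := by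
    intro e
    have h1 := e.2
    rw [← hP e] at h1
    exact h1
  have hPe : ∀ e : G.edgeSet, (⟨s((P e).1, (P e).2), hadjP e⟩ : G.edgeSet) = e :=
    fun e => Subtype.ext (hP e)
  have hadjB : ∀ e : G.edgeSet, bad e → B.Adj (P e).1 (P e).2 := by
    intro e he
    rw [hB]
    exact ⟨hadjP e, by rw [hPe e]; exact he⟩
  have key : ∀ (e : G.edgeSet), bad e → ∀ (u v : V), s(u, v) = e.1 →
      f (P e).1 (P e).2 = f u v := by
    intro e hbe u v huv
    have h1 := hP e
    rw [← huv] at h1
    rcases Sym2.eq_iff.1 h1 with ⟨h2, h3⟩ | ⟨h2, h3⟩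
    · rw [h2, h3]
    · rw [hf1 _ _ (hadjB e hbe), h2, h3]
  refine ⟨fun e => f (P e).1 (P e).2, ?_, ?_⟩
  · intro e he
    have h1 := hf2 _ _ (hadjB e he)
    rw [hL _ _ (hadjP e), hPe e] at h1
    exact h1
  · intro e e' he hbe hbe'
    rw [SimpleGraph.lineGraph_adj_iff_exists] at he
    obtain ⟨hne, x, hx, hx'⟩ := he
    obtain ⟨b, hb⟩ := Sym2.mem_iff_exists.1 hx
    obtain ⟨d, hd⟩ := Sym2.mem_iff_exists.1 hx'
    simp only
    rw [key e hbe x b hb.symm, key e' hbe' x d hd.symm]
    have h1 : G.Adj x b := by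
      have := e.2
      rw [hb] at this
      exact this
    have h2 : G.Adj x d := by
      have := e'.2
      rw [hd] at this
      exact this
    have e1 : (⟨s(x, b), h1⟩ : G.edgeSet) = e := Subtype.ext hb.symm
    have e2 : (⟨s(x, d), h2⟩ : G.edgeSet) = e' := Subtype.ext hd.symm
    apply hf3 x b d ((hB _ _).2 ⟨h1, by rw [e1]; exact hbe⟩)
      ((hB _ _).2 ⟨h2, by rw [e2]; exact hbe'⟩)
    rintro rfl
    apply hne
    exact Subtype.ext (hb.trans hd.symm)

/-- the colours of the list of `e` which are in no list of an edge with the colour `j` that is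
equal to `e` or adjacent to `e` -/
def free {G : SimpleGraph V} {C : ℕ} {ι : Type} (c : G.edgeSet → ι) (L : G.edgeSet → Finset (Fin C))
    (e : G.edgeSet) (j : ι) : Set (Fin C) :=
  {a | a ∈ L e ∧ ∀ f, c f = j → (f = e ∨ G.lineGraph.Adj e f) → a ∉ L f}

/-- the deterministic part: what has to be shown for the permutation -/
theorem det (G : SimpleGraph V) {C : ℕ} (c : G.edgeSet → Fin C)
    (hc : ∀ e e', G.lineGraph.Adj e e' → c e ≠ c e') (L : G.edgeSet → Finset (Fin C))
    (π : Equiv.Perm (Fin C)) (d : ℕ) (KS : ℝ)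
    (hKS : ∀ (H : SimpleGraph V) (L : V → V → Finset ℕ), (∀ v, dg H v ≤ d) →
      (∀ x y, L x y = L y x) → (∀ x y, H.Adj x y → (d : ℝ) + KS ≤ (L x y).card) → LC H L)
    (h1 : ∀ v, {i : Fin C | ∃ e : G.edgeSet, v ∈ e.1 ∧ c e = i ∧ π i ∉ L e}.ncard ≤ d)
    (h2 : ∀ e, (d : ℝ) + KS ≤ {i : Fin C | π i ∈ free c L e i}.ncard) :
    ∃ f : G.edgeSet → Fin C, (∀ e, f e ∈ L e) ∧ ∀ e e', G.lineGraph.Adj e e' → f e ≠ f e' := by
  classical
  let bad : G.edgeSet → Prop := fun e => π (c e) ∉ L e
  let Mf : G.edgeSet → Finset (Fin C) := fun e =>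
    (L e).filter (fun a => ∀ f, G.lineGraph.Adj e f → ¬ bad f → π (c f) ≠ a)
  let M : G.edgeSet → Finset ℕ := fun e => (Mf e).image Fin.val
  let B : SimpleGraph V :=
    { Adj := fun x y => ∃ h : G.Adj x y, bad ⟨s(x, y), h⟩
      symm := by
        constructor
        rintro x y ⟨h, hb⟩
        refine ⟨h.symm, ?_⟩
        have : (⟨s(y, x), h.symm⟩ : G.edgeSet) = ⟨s(x, y), h⟩ := Subtype.ext Sym2.eq_swap
        rw [this]
        exact hb
      loopless := by
        constructor
        rintro x ⟨h, _⟩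
        exact h.ne rfl }
  let L' : V → V → Finset ℕ := fun x y => if h : G.Adj x y then M ⟨s(x, y), h⟩ else ∅
  have hL' : ∀ x y (h : G.Adj x y), L' x y = M ⟨s(x, y), h⟩ := by
    intro x y h
    simp only [L']
    rw [dif_pos h]
  have hB : ∀ x y, B.Adj x y ↔ ∃ h : G.Adj x y, bad ⟨s(x, y), h⟩ := fun x y => Iff.rfl
  have hM : ∀ e, (d : ℝ) + KS ≤ (M e).card := by
    intro e
    refine (h2 e).trans ?_
    have e1 : (M e).card = (Mf e).card := Finset.card_image_of_injective _ Fin.val_injective
    rw [e1]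
    have e2 : {i : Fin C | π i ∈ free c L e i}.ncard ≤ (Mf e).card := by
      rw [← Set.ncard_coe_finset]
      apply Set.ncard_le_ncard_of_injOn (fun i => π i)
      · intro i hi
        simp only [Set.mem_setOf_eq] at hi
        rw [Finset.mem_coe, Finset.mem_filter]
        refine ⟨hi.1, fun f hf hgood heq => ?_⟩
        have h3 : c f = i := π.injective heq
        have h4 := hi.2 f h3 (Or.inr hf)
        apply hgood
        simp only [bad]
        rw [heq]
        exact h4
      · intro i _ j _ hij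
        exact π.injective hij
    exact_mod_cast e2
  have hLC : LC B L' := by
    apply hKS
    · intro v
      refine le_trans ?_ (h1 v)
      rw [dg, ← Set.ncard_coe_finset]
      have hch : ∀ w, B.Adj v w → ∃ i : Fin C, ∃ h : G.Adj v w, c ⟨s(v, w), h⟩ = i ∧
          bad ⟨s(v, w), h⟩ := fun w ⟨h, hb⟩ => ⟨_, h, rfl, hb⟩
      by_cases hC : Nonempty (Fin C)
      · let g : V → Fin C := fun w => if h : B.Adj v w then (hch w h).choose else hC.some
        have hg : ∀ w (hw : B.Adj v w), ∃ h : G.Adj v w, c ⟨s(v, w), h⟩ = g w ∧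
            bad ⟨s(v, w), h⟩ := by
          intro w hw
          simp only [g]
          rw [dif_pos hw]
          exact (hch w hw).choose_spec
        apply Set.ncard_le_ncard_of_injOn g
        · intro w hw
          rw [Finset.mem_coe, mem_nb] at hw
          obtain ⟨h, h3, h4⟩ := hg w hw
          refine ⟨⟨s(v, w), h⟩, Sym2.mem_mk_left v w, h3, ?_⟩
          rw [← h3]
          exact h4
        · intro w hw w' hw' heq
          rw [Finset.mem_coe, mem_nb] at hw hw'
          obtain ⟨h, h3, h4⟩ := hg w hw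
          obtain ⟨h', h3', h4'⟩ := hg w' hw'
          by_contra hne
          apply hc ⟨s(v, w), h⟩ ⟨s(v, w'), h'⟩
          · rw [SimpleGraph.lineGraph_adj_iff_exists]
            refine ⟨?_, v, Sym2.mem_mk_left v w, Sym2.mem_mk_left v w'⟩
            intro h5
            have h6 := congrArg Subtype.val h5
            simp only at h6
            rw [Sym2.congr_right] at h6
            exact hne h6
          · rw [h3, h3']
            exact heq
      · have : ∀ w, ¬ B.Adj v w := fun w hw => hC ⟨(hch w hw).choose⟩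
        have h5 : ((nb B v : Finset V) : Set V) = ∅ := by
          ext w
          simp only [Finset.mem_coe, mem_nb, Set.mem_empty_iff_false, iff_false]
          exact this w
        rw [h5, Set.ncard_empty]
        exact Nat.zero_le _
    · intro x y
      by_cases h : G.Adj x y
      · rw [hL' x y h, hL' y x h.symm]
        congr 1
        exact Subtype.ext Sym2.eq_swap
      · simp only [L']
        rw [dif_neg h, dif_neg (fun h' => h h'.symm)]
    · rintro x y ⟨h, _⟩
      rw [hL' x y h]
      exact hM _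
  obtain ⟨F, hF1, hF2⟩ := edge_of_LC G bad M B hB L' hL' hLC
  have hval : ∀ e, ∃ a : Fin C, a ∈ L e ∧ (¬ bad e → a = π (c e)) ∧
      (bad e → a ∈ Mf e ∧ a.val = F e) := by
    intro e
    by_cases hb : bad e
    · obtain ⟨a, ha, hae⟩ := Finset.mem_image.1 (hF1 e hb)
      exact ⟨a, (Finset.mem_filter.1 ha).1, fun h => (h hb).elim, fun _ => ⟨ha, hae⟩⟩
    · refine ⟨π (c e), ?_, fun _ => rfl, fun h => (hb h).elim⟩
      simpa [bad] using hb
  choose f hf1 hf2 hf3 using hval
  refine ⟨f, hf1, ?_⟩
  intro e e' hee' heq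
  by_cases hb : bad e
  · by_cases hb' : bad e'
    · apply hF2 e e' hee' hb hb'
      rw [← (hf3 e hb).2, ← (hf3 e' hb').2, heq]
    · have h3 := (Finset.mem_filter.1 (hf3 e hb).1).2 e' hee' hb'
      apply h3
      rw [heq, hf2 e' hb']
  · by_cases hb' : bad e'
    · have h3 := (Finset.mem_filter.1 (hf3 e' hb').1).2 e hee'.symm hb
      apply h3
      rw [← heq, hf2 e hb]
    · rw [hf2 e hb, hf2 e' hb'] at heq
      exact hc e e' hee' (π.injective heq)

end Pool.Agent.J4.H80.LL
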