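import Pool.Agent.J4.H80.LL.B

/-!
# List edge colourings from locally diverse lists: the choice of the permutation
-/

set_option autoImplicit false
set_option linter.unusedSectionVars false
set_option linter.unusedVariables false

namespace Pool.Agent.J4.H80.LL

open Finset Pool.Agent.H162R2.Sparse

/-- numerical lemma, upper tail -/
theorem num_up (β l : ℝ) (hβ : 0 ≤ β) (hl : 0 < l) :
    ∃ θ : ℝ, 0 ≤ θ ∧ θ ≤ 1 / 2 ∧
      2 * β * θ ^ 2 - θ * (10 * (Real.sqrt (β * l) + l)) ≤ -3 * l := by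
  have hs : 0 ≤ Real.sqrt (β * l) := Real.sqrt_nonneg _
  rcases le_or_gt β (4 * l) with h | h
  · refine ⟨1 / 2, by norm_num, le_rfl, ?_⟩
    nlinarith
  · have hβ0 : 0 < β := by linarith
    refine ⟨Real.sqrt (l / β), Real.sqrt_nonneg _, ?_, ?_⟩
    · rw [show (1 / 2 : ℝ) = Real.sqrt (1 / 4) from by
        rw [show (1 / 4 : ℝ) = (1 / 2) ^ 2 from by norm_num, Real.sqrt_sq (by norm_num)]]
      apply Real.sqrt_le_sqrt
      rw [div_le_iff₀ hβ0]
      linarith
    · have h1 : Real.sqrt (l / β) ^ 2 = l / β := Real.sq_sqrt (by positivity)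
      have h2 : Real.sqrt (l / β) * Real.sqrt (β * l) = l := by
        rw [← Real.sqrt_mul (by positivity)]
        rw [show l / β * (β * l) = l ^ 2 from by field_simp]
        exact Real.sqrt_sq hl.le
      rw [h1]
      have h3 : 0 ≤ Real.sqrt (l / β) * l := by positivity
      have h4 : 2 * β * (l / β) = 2 * l := by field_simp
      nlinarith

/-- numerical lemma, lower tail -/
theorem num_low (K β l m : ℝ) (hK : 68 ≤ K) (hβ : 0 ≤ β) (hl : 0 < l)
    (hm : β + K * (Real.sqrt (β * l) + l) ≤ m) :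
    ∃ θ : ℝ, 0 ≤ θ ∧
      m * θ ^ 2 + θ * (β + K / 4 * (Real.sqrt (β * l) + l) - m) ≤ -4 * l := by
  have hs : 0 ≤ Real.sqrt (β * l) := Real.sqrt_nonneg _
  -- reduce to the smallest value of `m`
  have red : ∀ θ : ℝ, 0 ≤ θ → θ ≤ 1 →
      (β + K * (Real.sqrt (β * l) + l)) * θ ^ 2 +
        θ * (β + K / 4 * (Real.sqrt (β * l) + l) - (β + K * (Real.sqrt (β * l) + l))) ≤ -4 * l →
      m * θ ^ 2 + θ * (β + K / 4 * (Real.sqrt (β * l) + l) - m) ≤ -4 * l := by
    intro θ h0 h1 h2
    have h3 : 0 ≤ (m - (β + K * (Real.sqrt (β * l) + l))) * (θ * (1 - θ)) :=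
      mul_nonneg (by linarith) (mul_nonneg h0 (by linarith))
    nlinarith
  rcases le_or_gt β l with h | h
  · refine ⟨1 / 4, by norm_num, red _ (by norm_num) (by norm_num) ?_⟩
    nlinarith
  · have hβ0 : 0 < β := by linarith
    have h0 : 0 ≤ Real.sqrt (l / β) := Real.sqrt_nonneg _
    have hle1 : Real.sqrt (l / β) ≤ 1 := by
      refine Real.sqrt_le_iff.2 ⟨zero_le_one, ?_⟩
      rw [one_pow, div_le_one hβ0]
      exact h.le
    refine ⟨1 / 4 * Real.sqrt (l / β), by positivity, red _ (by positivity) (by linarith) ?_⟩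
    have h1 : Real.sqrt (l / β) ^ 2 = l / β := Real.sq_sqrt (by positivity)
    have h2 : Real.sqrt (l / β) * Real.sqrt (β * l) = l := by
      rw [← Real.sqrt_mul (by positivity)]
      rw [show l / β * (β * l) = l ^ 2 from by field_simp]
      exact Real.sqrt_sq hl.le
    set s := Real.sqrt (l / β) with hs'
    set r := Real.sqrt (β * l) with hr
    have h4 : β * (l / β) = l := by field_simp
    have h5 : l / β ≤ 1 := by rw [div_le_one hβ0]; exact h.le
    have h6 : r * (l / β) ≤ l := by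
      -- r * s * s = l * s ≤ l
      rw [← h1]
      have : r * s ^ 2 = (s * r) * s := by ring
      rw [this, h2]
      nlinarith
    have h7 : l * (l / β) ≤ l := by nlinarith
    have h8 : 0 ≤ s * l := by positivity
    have e1 : (β + K * (r + l)) * (1 / 4 * s) ^ 2 +
        1 / 4 * s * (β + K / 4 * (r + l) - (β + K * (r + l))) =
        1 / 16 * (β * s ^ 2 + K * (r * s ^ 2 + l * s ^ 2)) - 3 / 16 * K * (s * r + s * l) := by
      ring
    rw [e1, h1, h4, h2]
    have h9 : K * (r * (l / β) + l * (l / β)) ≤ K * (2 * l) :=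
      mul_le_mul_of_nonneg_left (by linarith) (by linarith)
    have h10 : 0 ≤ K * (s * l) := mul_nonneg (by linarith) h8
    nlinarith

/-- numerical lemma for the degrees -/
theorem num_deg (β l : ℝ) (hβ : 0 ≤ β) (hl : 0 < l) :
    Real.sqrt ((β + 10 * (Real.sqrt (β * l) + l)) * l) ≤ 4 * (Real.sqrt (β * l) + l) := by
  have hs : 0 ≤ Real.sqrt (β * l) := Real.sqrt_nonneg _
  have h1 : Real.sqrt (β * l) ^ 2 = β * l := Real.sq_sqrt (by positivity)
  apply Real.sqrt_le_iff.2
  refine ⟨by positivity, ?_⟩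
  nlinarith [mul_nonneg hs hl.le]

/-- **Main theorem**, general form -/
theorem main_det : ∃ K : ℝ, 1 ≤ K ∧ ∀ (V : Type) [Fintype V] (G : SimpleGraph V) (C : ℕ)
    (c : G.edgeSet → Fin C), (∀ e e', G.lineGraph.Adj e e' → c e ≠ c e') →
    ∀ (L : G.edgeSet → Finset (Fin C)) (β : ℝ), 0 ≤ β →
    (∀ v, (∑ i : Fin C, ({a : Fin C | ∃ e : G.edgeSet, v ∈ e.1 ∧ c e = i ∧ a ∉ L e}.ncard : ℝ)) ≤
      C * β) →
    (∀ e, (C : ℝ) * (β + K * (Real.sqrt (β * Real.log (Fintype.card V)) +
      Real.log (Fintype.card V))) ≤ ∑ i : Fin C, ((free c L e i).ncard : ℝ)) →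
    ∃ f : G.edgeSet → Fin C, (∀ e, f e ∈ L e) ∧ ∀ e e', G.lineGraph.Adj e e' → f e ≠ f e' := by
  classical
  obtain ⟨KS, hKS1, hKS⟩ := Pool.Agent.H892.LEC.col_S
  refine ⟨40 + 28 * KS, by linarith, ?_⟩
  intro V _ G C c hc L β hβ hdeg hfree
  -- trivial case: no edges
  by_cases hE : Nonempty G.edgeSet
  swap
  · exact ⟨fun e => (hE ⟨e⟩).elim, fun e => (hE ⟨e⟩).elim, fun e => (hE ⟨e⟩).elim⟩
  obtain ⟨e₀⟩ := hE
  have hne : Nonempty (Fin C) := ⟨c e₀⟩
  have hC : (0 : ℝ) < C := by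
    have : 0 < C := Fin.pos (c e₀)
    exact_mod_cast this
  have hn2 : 2 ≤ Fintype.card V := by
    obtain ⟨e, he⟩ := e₀
    induction e using Sym2.ind with
    | _ a b =>
      have : 1 < Fintype.card V := Fintype.one_lt_card_iff.2 ⟨a, b, SimpleGraph.Adj.ne he⟩
      omega
  set n := Fintype.card V with hn
  set l := Real.log n with hl
  have hn2' : (2 : ℝ) ≤ n := by exact_mod_cast hn2
  have hl0 : 0 < l := Real.log_pos (by linarith)
  set u := Real.sqrt (β * l) + l with hu
  have hu0 : 0 < u := by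
    have := Real.sqrt_nonneg (β * l)
    rw [hu]
    linarith
  -- the matrices
  let bv : V → Fin C → Fin C → ℝ := fun v i a =>
    if ∃ e : G.edgeSet, v ∈ e.1 ∧ c e = i ∧ a ∉ L e then 1 else 0
  let ze : G.edgeSet → Fin C → Fin C → ℝ := fun e i a => if a ∈ free c L e i then 1 else 0
  have hbv0 : ∀ v i a, 0 ≤ bv v i a := by
    intro v i a
    simp only [bv]
    split_ifs <;> norm_num
  have hbv1 : ∀ v i a, bv v i a ≤ 1 := by
    intro v i a
    simp only [bv]
    split_ifs <;> norm_num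
  have hze0 : ∀ e i a, 0 ≤ ze e i a := by
    intro e i a
    simp only [ze]
    split_ifs <;> norm_num
  have hze1 : ∀ e i a, ze e i a ≤ 1 := by
    intro e i a
    simp only [ze]
    split_ifs <;> norm_num
  have hXb : ∀ v (π : Equiv.Perm (Fin C)), X (bv v) π =
      ({i : Fin C | ∃ e : G.edgeSet, v ∈ e.1 ∧ c e = i ∧ π i ∉ L e}.ncard : ℝ) := by
    intro v π
    unfold X
    simp only [bv]
    rw [Finset.sum_boole]
    congr 1
    rw [← Set.ncard_coe_finset]
    congr 1
    ext i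
    simp
  have hXz : ∀ e (π : Equiv.Perm (Fin C)), X (ze e) π =
      ({i : Fin C | π i ∈ free c L e i}.ncard : ℝ) := by
    intro e π
    unfold X
    simp only [ze]
    rw [Finset.sum_boole]
    congr 1
    rw [← Set.ncard_coe_finset]
    congr 1
    ext i
    simp
  have hmb : ∀ v, mu (bv v) ≤ β := by
    intro v
    unfold mu
    rw [Fintype.card_fin, div_le_iff₀ hC, mul_comm]
    refine le_trans (le_of_eq ?_) (hdeg v)
    refine Finset.sum_congr rfl fun i _ => ?_
    simp only [bv]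
    rw [Finset.sum_boole]
    congr 1
    rw [← Set.ncard_coe_finset]
    congr 1
    ext a
    simp
  have hmz : ∀ e, β + (40 + 28 * KS) * u ≤ mu (ze e) := by
    intro e
    unfold mu
    rw [Fintype.card_fin, le_div_iff₀ hC, mul_comm]
    refine (hfree e).trans (le_of_eq ?_)
    refine Finset.sum_congr rfl fun i _ => ?_
    simp only [ze]
    rw [Finset.sum_boole]
    congr 1
    rw [← Set.ncard_coe_finset]
    congr 1
    ext a
    simp
  -- the bad events
  have hN : (0 : ℝ) < Fintype.card (Equiv.Perm (Fin C)) := by exact_mod_cast Fintype.card_pos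
  set N : ℝ := (Fintype.card (Equiv.Perm (Fin C)) : ℝ) with hNdef
  have hlexp : Real.exp (-l) = (n : ℝ)⁻¹ := by
    rw [hl, Real.exp_neg, Real.exp_log (by linarith)]
  have ht1 : ∀ v, ((Finset.univ.filter (fun π : Equiv.Perm (Fin C) =>
      β + 10 * u ≤ X (bv v) π)).card : ℝ) ≤ N * (n : ℝ)⁻¹ ^ 3 := by
    intro v
    obtain ⟨θ, hθ0, hθ1, hθ⟩ := num_up β l hβ hl0
    have h3 := tail_up (bv v) (hbv0 v) (hbv1 v) θ (β + 10 * u) hθ0 hθ1
    refine h3.trans (mul_le_mul_of_nonneg_left ?_ hN.le)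
    rw [← hlexp, ← Real.exp_nat_mul]
    apply Real.exp_le_exp.2
    have h4 := hmb v
    have h5 : 2 * mu (bv v) * θ ^ 2 ≤ 2 * β * θ ^ 2 := by
      have : 0 ≤ θ ^ 2 := sq_nonneg θ
      nlinarith
    have h6 : θ * (10 * u) ≤ θ * (β + 10 * u - mu (bv v)) :=
      mul_le_mul_of_nonneg_left (by linarith) hθ0
    push_cast
    linarith
  have ht2 : ∀ e, ((Finset.univ.filter (fun π : Equiv.Perm (Fin C) =>
      X (ze e) π ≤ β + (40 + 28 * KS) / 4 * u)).card : ℝ) ≤ N * (n : ℝ)⁻¹ ^ 4 := by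
    intro e
    obtain ⟨θ, hθ0, hθ⟩ := num_low (40 + 28 * KS) β l (mu (ze e)) (by linarith) hβ hl0 (hmz e)
    have h3 := tail_low (ze e) (hze0 e) (hze1 e) θ (β + (40 + 28 * KS) / 4 * u) hθ0
    refine h3.trans (mul_le_mul_of_nonneg_left ?_ hN.le)
    rw [← hlexp, ← Real.exp_nat_mul]
    apply Real.exp_le_exp.2
    push_cast
    linarith
  have hEc : (Fintype.card G.edgeSet : ℝ) ≤ (n : ℝ) ^ 2 / 2 := by
    have h3 : Fintype.card G.edgeSet ≤ n.choose 2 := by
      rw [← SimpleGraph.edgeFinset_card]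
      exact SimpleGraph.card_edgeFinset_le_card_choose_two
    have h4 : (Fintype.card G.edgeSet : ℝ) ≤ (n.choose 2 : ℝ) := by exact_mod_cast h3
    refine h4.trans ?_
    rw [Nat.cast_choose_two]
    nlinarith
  -- existence of a good permutation
  obtain ⟨π, hπ1, hπ2⟩ : ∃ π : Equiv.Perm (Fin C), (∀ v, X (bv v) π < β + 10 * u) ∧
      ∀ e, β + (40 + 28 * KS) / 4 * u < X (ze e) π := by
    by_contra hcon
    push Not at hcon
    have hcov : (Finset.univ : Finset (Equiv.Perm (Fin C))) ⊆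
        (Finset.univ : Finset V).biUnion (fun v => Finset.univ.filter
          (fun π : Equiv.Perm (Fin C) => β + 10 * u ≤ X (bv v) π)) ∪
        (Finset.univ : Finset G.edgeSet).biUnion (fun e => Finset.univ.filter
          (fun π : Equiv.Perm (Fin C) => X (ze e) π ≤ β + (40 + 28 * KS) / 4 * u)) := by
      intro π _
      by_cases h : ∀ v, X (bv v) π < β + 10 * u
      · obtain ⟨e, he⟩ := hcon π h
        apply Finset.mem_union_right
        rw [Finset.mem_biUnion]
        exact ⟨e, Finset.mem_univ _, by simp [he]⟩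
      · push Not at h
        obtain ⟨v, hv⟩ := h
        apply Finset.mem_union_left
        rw [Finset.mem_biUnion]
        exact ⟨v, Finset.mem_univ _, by simp [hv]⟩
    have h3 := Finset.card_le_card hcov
    have h4 : N ≤ (∑ v : V, ((Finset.univ.filter
          (fun π : Equiv.Perm (Fin C) => β + 10 * u ≤ X (bv v) π)).card : ℝ)) +
        ∑ e : G.edgeSet, ((Finset.univ.filter
          (fun π : Equiv.Perm (Fin C) => X (ze e) π ≤ β + (40 + 28 * KS) / 4 * u)).card : ℝ) := by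
      have h5 : (Finset.univ : Finset (Equiv.Perm (Fin C))).card ≤
          (∑ v : V, (Finset.univ.filter
          (fun π : Equiv.Perm (Fin C) => β + 10 * u ≤ X (bv v) π)).card) +
          ∑ e : G.edgeSet, (Finset.univ.filter
          (fun π : Equiv.Perm (Fin C) => X (ze e) π ≤ β + (40 + 28 * KS) / 4 * u)).card :=
        h3.trans ((Finset.card_union_le _ _).trans
          (add_le_add Finset.card_biUnion_le Finset.card_biUnion_le))
      rw [hNdef, ← Finset.card_univ]
      exact_mod_cast h5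
    have h5 : (∑ v : V, ((Finset.univ.filter
          (fun π : Equiv.Perm (Fin C) => β + 10 * u ≤ X (bv v) π)).card : ℝ)) ≤
        n * (N * (n : ℝ)⁻¹ ^ 3) := by
      refine (Finset.sum_le_sum fun v _ => ht1 v).trans (le_of_eq ?_)
      rw [Finset.sum_const, Finset.card_univ, nsmul_eq_mul]
    have h6 : ∑ e : G.edgeSet, ((Finset.univ.filter
          (fun π : Equiv.Perm (Fin C) => X (ze e) π ≤ β + (40 + 28 * KS) / 4 * u)).card : ℝ) ≤
        (n : ℝ) ^ 2 / 2 * (N * (n : ℝ)⁻¹ ^ 4) := by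
      refine (Finset.sum_le_sum fun e _ => ht2 e).trans ?_
      rw [Finset.sum_const, Finset.card_univ, nsmul_eq_mul]
      exact mul_le_mul_of_nonneg_right hEc (by positivity)
    have hnpos : (0 : ℝ) < n := by linarith
    have h7 : (n : ℝ) * (N * (n : ℝ)⁻¹ ^ 3) = N * (n : ℝ)⁻¹ ^ 2 := by
      field_simp
    have h8 : (n : ℝ) ^ 2 / 2 * (N * (n : ℝ)⁻¹ ^ 4) = N * ((n : ℝ)⁻¹ ^ 2 / 2) := by
      field_simp
    have h9 : (n : ℝ)⁻¹ ^ 2 ≤ 1 / 4 := by
      rw [inv_pow, inv_le_comm₀ (by positivity) (by norm_num)]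
      nlinarith
    rw [h7] at h5
    rw [h8] at h6
    nlinarith
  -- conclusion
  have hd0 : 0 ≤ β + 10 * u := by positivity
  have hdle : ((⌊β + 10 * u⌋₊ : ℕ) : ℝ) ≤ β + 10 * u := Nat.floor_le hd0
  refine det G c hc L π ⌊β + 10 * u⌋₊
    (KS * Real.sqrt ((⌊β + 10 * u⌋₊ : ℕ) * l) + KS * l) ?_ ?_ ?_
  · intro H L' h1 h2 h3
    exact hKS V H _ h1 L' h2 h3
  · intro v
    have h3 := (hπ1 v).le
    rw [hXb] at h3
    exact Nat.le_floor h3
  · intro e
    rw [← hXz]
    have h3 := (hπ2 e).le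
    refine le_trans ?_ h3
    have h4 : Real.sqrt ((⌊β + 10 * u⌋₊ : ℕ) * l) ≤ 4 * u := by
      refine le_trans (Real.sqrt_le_sqrt ?_) (num_deg β l hβ hl0)
      exact mul_le_mul_of_nonneg_right hdle hl0.le
    have h5 : l ≤ u := by
      have := Real.sqrt_nonneg (β * l)
      rw [hu]
      linarith
    have h6 : KS * Real.sqrt ((⌊β + 10 * u⌋₊ : ℕ) * l) ≤ KS * (4 * u) :=
      mul_le_mul_of_nonneg_left h4 (by linarith)
    have h7 : KS * l ≤ KS * u := mul_le_mul_of_nonneg_left h5 (by linarith)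
    have h8 : 0 ≤ KS * u := by positivity
    nlinarith

end Pool.Agent.J4.H80.LL
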