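import Mathlib

/-!
# Expectations for product weights
-/

set_option autoImplicit false
set_option linter.unusedSectionVars false
set_option linter.unusedVariables false

namespace Pool.Agent.J4.H80.LL

open Finset

variable {E α : Type} [Fintype E] [DecidableEq E] [Fintype α] [DecidableEq α]

/-- the weight of a function -/
def wt (w : E → α → ℝ) (L : E → α) : ℝ := ∏ e, w e (L e)

/-- expectation -/
def Ex (w : E → α → ℝ) (Φ : (E → α) → ℝ) : ℝ := ∑ L, wt w L * Φ L

theorem wt_nonneg {w : E → α → ℝ} (h : ∀ e a, 0 ≤ w e a) (L : E → α) : 0 ≤ wt w L :=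
  Finset.prod_nonneg fun e _ => h e _

theorem sum_wt {w : E → α → ℝ} (h : ∀ e, ∑ a, w e a = 1) : ∑ L, wt w L = 1 := by
  unfold wt
  rw [← Fintype.piFinset_univ, ← Finset.prod_univ_sum]
  simp [h]

theorem Ex_const {w : E → α → ℝ} (h : ∀ e, ∑ a, w e a = 1) (t : ℝ) : Ex w (fun _ => t) = t := by
  unfold Ex
  rw [← Finset.sum_mul, sum_wt h, one_mul]

theorem Ex_mono {w : E → α → ℝ} (h : ∀ e a, 0 ≤ w e a) {Φ Ψ : (E → α) → ℝ}
    (hle : ∀ L, wt w L ≠ 0 → Φ L ≤ Ψ L) : Ex w Φ ≤ Ex w Ψ := by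
  unfold Ex
  refine Finset.sum_le_sum fun L _ => ?_
  by_cases h0 : wt w L = 0
  · rw [h0]; simp
  · exact mul_le_mul_of_nonneg_left (hle L h0) (wt_nonneg h L)

theorem Ex_nonneg {w : E → α → ℝ} (h : ∀ e a, 0 ≤ w e a) {Φ : (E → α) → ℝ}
    (hle : ∀ L, 0 ≤ Φ L) : 0 ≤ Ex w Φ :=
  Finset.sum_nonneg fun L _ => mul_nonneg (wt_nonneg h L) (hle L)

theorem Ex_sum {w : E → α → ℝ} {J : Type} (s : Finset J) (Φ : J → (E → α) → ℝ) :
    Ex w (fun L => ∑ j ∈ s, Φ j L) = ∑ j ∈ s, Ex w (Φ j) := by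
  unfold Ex
  rw [Finset.sum_comm]
  refine Finset.sum_congr rfl fun L _ => ?_
  rw [Finset.mul_sum]

theorem Ex_add {w : E → α → ℝ} (Φ Ψ : (E → α) → ℝ) :
    Ex w (fun L => Φ L + Ψ L) = Ex w Φ + Ex w Ψ := by
  unfold Ex
  rw [← Finset.sum_add_distrib]
  exact Finset.sum_congr rfl fun L _ => by ring

theorem Ex_mul {w : E → α → ℝ} (t : ℝ) (Φ : (E → α) → ℝ) :
    Ex w (fun L => t * Φ L) = t * Ex w Φ := by
  unfold Ex
  rw [Finset.mul_sum]
  exact Finset.sum_congr rfl fun L _ => by ring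

/-- `L` on `S` and `M` elsewhere -/
def mix (S : Finset E) (L M : E → α) : E → α := fun e => if e ∈ S then L e else M e

theorem mix_mix (S : Finset E) (L M : E → α) : mix S (mix S L M) (mix S M L) = L := by
  funext e
  unfold mix
  split_ifs <;> rfl

/-- the exchange of two functions outside `S` -/
def mixEquiv (S : Finset E) : (E → α) × (E → α) ≃ (E → α) × (E → α) where
  toFun p := (mix S p.1 p.2, mix S p.2 p.1)
  invFun p := (mix S p.1 p.2, mix S p.2 p.1)
  left_inv p := by
    ext1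
    · exact mix_mix S p.1 p.2
    · exact mix_mix S p.2 p.1
  right_inv p := by
    ext1
    · exact mix_mix S p.1 p.2
    · exact mix_mix S p.2 p.1

theorem wt_mix (w : E → α → ℝ) (S : Finset E) (L M : E → α) :
    wt w (mix S L M) * wt w (mix S M L) = wt w L * wt w M := by
  unfold wt
  rw [← Finset.prod_mul_distrib, ← Finset.prod_mul_distrib]
  refine Finset.prod_congr rfl fun e _ => ?_
  unfold mix
  split_ifs <;> ring

/-- independence -/
theorem Ex_indep {w : E → α → ℝ} (h : ∀ e, ∑ a, w e a = 1) (S : Finset E)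
    (Φ Ψ : (E → α) → ℝ) (hΦ : ∀ L M, (∀ e ∈ S, L e = M e) → Φ L = Φ M)
    (hΨ : ∀ L M, (∀ e ∉ S, L e = M e) → Ψ L = Ψ M) :
    Ex w (fun L => Φ L * Ψ L) = Ex w Φ * Ex w Ψ := by
  have h1 : Ex w Φ * Ex w Ψ = ∑ p : (E → α) × (E → α), (wt w p.1 * Φ p.1) * (wt w p.2 * Ψ p.2) := by
    unfold Ex
    rw [Finset.sum_mul_sum, ← Finset.univ_product_univ, Finset.sum_product]
  rw [h1, ← Equiv.sum_comp (mixEquiv S)]
  have h2 : ∀ p : (E → α) × (E → α), (wt w (mixEquiv S p).1 * Φ (mixEquiv S p).1) *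
      (wt w (mixEquiv S p).2 * Ψ (mixEquiv S p).2) =
      (wt w p.1 * (Φ p.1 * Ψ p.1)) * wt w p.2 := by
    rintro ⟨P, Q⟩
    simp only [mixEquiv, Equiv.coe_fn_mk]
    have e1 : Φ (mix S P Q) = Φ P := hΦ _ _ fun e he => by unfold mix; rw [if_pos he]
    have e2 : Ψ (mix S Q P) = Ψ P := hΨ _ _ fun e he => by unfold mix; rw [if_neg he]
    rw [e1, e2]
    have e3 := wt_mix w S P Q
    calc wt w (mix S P Q) * Φ P * (wt w (mix S Q P) * Ψ P)
        = (wt w (mix S P Q) * wt w (mix S Q P)) * (Φ P * Ψ P) := by ring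
      _ = _ := by rw [e3]; ring
  simp only [h2]
  rw [← Finset.univ_product_univ, Finset.sum_product]
  simp only [← Finset.mul_sum, sum_wt h, mul_one]
  rfl

/-- independence of a family -/
theorem Ex_prod {w : E → α → ℝ} (h : ∀ e, ∑ a, w e a = 1) {J : Type} [DecidableEq J]
    (S : J → Finset E) (hS : ∀ i j, i ≠ j → Disjoint (S i) (S j))
    (Φ : J → (E → α) → ℝ) (hΦ : ∀ j L M, (∀ e ∈ S j, L e = M e) → Φ j L = Φ j M)
    (T : Finset J) : Ex w (fun L => ∏ j ∈ T, Φ j L) = ∏ j ∈ T, Ex w (Φ j) := by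
  induction T using Finset.induction_on with
  | empty =>
    simp only [Finset.prod_empty]
    exact Ex_const h 1
  | insert i T hi ih =>
    rw [Finset.prod_insert hi, ← ih]
    rw [← Ex_indep h (S i) (Φ i) (fun L => ∏ j ∈ T, Φ j L) (hΦ i)]
    · congr 1
      funext L
      rw [Finset.prod_insert hi]
    · intro L M hLM
      refine Finset.prod_congr rfl fun j hj => hΦ j L M fun e he => hLM e ?_
      have hij : i ≠ j := by
        rintro rfl
        exact hi hj
      exact fun hei => Finset.disjoint_left.1 (hS i j hij) hei he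

/-- one coordinate -/
theorem Ex_coord {w : E → α → ℝ} (h : ∀ e, ∑ a, w e a = 1) (e : E) (g : α → ℝ) :
    Ex w (fun L => g (L e)) = ∑ a, w e a * g a := by
  unfold Ex wt
  have h1 : ∀ L : E → α, (∏ f, w f (L f)) * g (L e) =
      ∏ f, (if f = e then w f (L f) * g (L f) else w f (L f)) := by
    intro L
    rw [← Finset.mul_prod_erase _ _ (Finset.mem_univ e),
      ← Finset.mul_prod_erase (s := Finset.univ) (f := fun f => if f = e then w f (L f) * g (L f)
        else w f (L f)) (Finset.mem_univ e)]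
    rw [if_pos rfl]
    have h2 : ∏ f ∈ Finset.univ.erase e, (if f = e then w f (L f) * g (L f) else w f (L f)) =
        ∏ f ∈ Finset.univ.erase e, w f (L f) :=
      Finset.prod_congr rfl fun f hf => if_neg (Finset.ne_of_mem_erase hf)
    rw [h2]
    ring
  simp only [h1]
  rw [← Fintype.piFinset_univ]
  have h3 := Finset.prod_univ_sum (R := ℝ) (fun _ : E => (Finset.univ : Finset α))
    (fun f a => if f = e then w f a * g a else w f a)
  rw [← h3, ← Finset.mul_prod_erase _ _ (Finset.mem_univ e)]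
  have h4 : ∏ f ∈ Finset.univ.erase e, ∑ a, (if f = e then w f a * g a else w f a) = 1 := by
    refine Finset.prod_eq_one fun f hf => ?_
    simp only [if_neg (Finset.ne_of_mem_erase hf)]
    exact h f
  rw [h4, mul_one]
  simp

/-- resampling of one coordinate -/
theorem Ex_resample {w : E → α → ℝ} (h : ∀ e, ∑ a, w e a = 1) (e : E) (Φ : (E → α) → ℝ) :
    Ex w Φ = ∑ a, w e a * Ex w (fun L => Φ (Function.update L e a)) := by
  have h1 : Ex w Φ = Ex w (fun L => ∑ a, (if L e = a then (1 : ℝ) else 0) *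
      Φ (Function.update L e a)) := by
    congr 1
    funext L
    rw [Finset.sum_eq_single (L e)]
    · rw [if_pos rfl, Function.update_eq_self, one_mul]
    · intro b _ hb
      rw [if_neg (Ne.symm hb), zero_mul]
    · intro hne
      exact (hne (Finset.mem_univ _)).elim
  rw [h1, Ex_sum]
  refine Finset.sum_congr rfl fun a _ => ?_
  rw [Ex_indep h {e} (fun L => if L e = a then (1 : ℝ) else 0)
    (fun L => Φ (Function.update L e a))]
  · congr 1
    rw [Ex_coord h e (fun b => if b = a then (1 : ℝ) else 0)]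
    simp
  · intro L M hLM
    rw [hLM e (Finset.mem_singleton_self e)]
  · intro L M hLM
    congr 1
    funext f
    by_cases hf : f = e
    · subst hf
      simp
    · rw [Function.update_of_ne hf, Function.update_of_ne hf]
      exact hLM f (by simpa using hf)

end Pool.Agent.J4.H80.LL
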