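import Pool.Agent.J4.H80.LL.B2

/-!
# List edge colourings from locally diverse lists: lists of equal size
-/

set_option autoImplicit false
set_option linter.unusedSectionVars false
set_option linter.unusedVariables false

namespace Pool.Agent.J4.H80.LL

open Finset

/-- the graph can be coloured from the lists -/
def Col {V : Type} (G : SimpleGraph V) {C : ℕ} (L : G.edgeSet → Finset (Fin C)) : Prop :=
  ∃ f : G.edgeSet → Fin C, (∀ e, f e ∈ L e) ∧ ∀ e e', G.lineGraph.Adj e e' → f e ≠ f e'

theorem sum_split {k C : ℕ} (hkC : k ≤ C) (g : Fin C → ℝ) (b : ℝ)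
    (hg : ∀ i, (∀ j : Fin k, Fin.castLE hkC j ≠ i) → g i = b) :
    ∑ i, g i = ∑ j : Fin k, g (Fin.castLE hkC j) + (C - k) * b := by
  classical
  set R : Finset (Fin C) := (Finset.univ : Finset (Fin k)).map (Fin.castLEEmb hkC) with hR
  have h1 : ∑ i, g i = ∑ i ∈ R, g i + ∑ i ∈ Rᶜ, g i := (Finset.sum_add_sum_compl R g).symm
  have h2 : ∑ i ∈ R, g i = ∑ j : Fin k, g (Fin.castLE hkC j) := by
    rw [hR, Finset.sum_map]
    rfl
  have h3 : ∑ i ∈ Rᶜ, g i = (C - k) * b := by
    rw [Finset.sum_congr rfl (g := fun _ => b)]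
    · rw [Finset.sum_const, nsmul_eq_mul, Finset.card_compl, hR, Finset.card_map,
        Finset.card_univ, Fintype.card_fin, Fintype.card_fin, Nat.cast_sub hkC]
    · intro i hi
      apply hg
      rintro j rfl
      rw [Finset.mem_compl] at hi
      exact hi (Finset.mem_map.2 ⟨j, Finset.mem_univ _, rfl⟩)
  rw [h1, h2, h3]

/-- **Main theorem** for lists of equal size -/
theorem main_unif : ∃ K : ℝ, 1 ≤ K ∧ ∀ (V : Type) [Fintype V] (G : SimpleGraph V) (k C m : ℕ),
    k ≤ C → ∀ c : G.edgeSet → Fin k, (∀ e e', G.lineGraph.Adj e e' → c e ≠ c e') →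
    ∀ L : G.edgeSet → Finset (Fin C), (∀ e, (L e).card = m) →
    (∀ e, (C : ℝ) * (k - m + K * (Real.sqrt (k * (1 - m / C) * Real.log (Fintype.card V)) +
      Real.log (Fintype.card V))) ≤ ∑ j : Fin k, ((free c L e j).ncard : ℝ)) → Col G L := by
  classical
  obtain ⟨K, hK, hmain⟩ := main_det
  refine ⟨K, hK, ?_⟩
  intro V _ G k C m hkC c hc L hL hfree
  by_cases hE : Nonempty G.edgeSet
  swap
  · exact ⟨fun e => (hE ⟨e⟩).elim, fun e => (hE ⟨e⟩).elim, fun e => (hE ⟨e⟩).elim⟩
  obtain ⟨e₀⟩ := hE
  have hmC : m ≤ C := by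
    rw [← hL e₀]
    exact (Finset.card_le_univ _).trans (by simp)
  have hC0 : 0 < C := by
    have := (c e₀).pos
    omega
  have hC : (0 : ℝ) < C := by exact_mod_cast hC0
  have hmC' : (m : ℝ) ≤ C := by exact_mod_cast hmC
  have hβ : (0 : ℝ) ≤ k * (1 - m / C) := by
    apply mul_nonneg (by positivity)
    rw [sub_nonneg, div_le_one hC]
    exact hmC'
  have hCβ : (C : ℝ) * (k * (1 - m / C)) = k * (C - m) := by field_simp
  refine hmain V G C (fun e => Fin.castLE hkC (c e)) ?_ L (k * (1 - m / C)) hβ ?_ ?_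
  · intro e e' h heq
    exact hc e e' h (Fin.castLE_injective hkC heq)
  · intro v
    rw [hCβ, sum_split hkC _ 0]
    · rw [mul_zero, add_zero]
      have h1 : ∀ j : Fin k, (({a : Fin C | ∃ e : G.edgeSet, v ∈ e.1 ∧
          Fin.castLE hkC (c e) = Fin.castLE hkC j ∧ a ∉ L e}.ncard : ℕ) : ℝ) ≤ C - m := by
        intro j
        by_cases h : ∃ e : G.edgeSet, v ∈ e.1 ∧ c e = j
        · obtain ⟨e, he, hej⟩ := h
          have h2 : {a : Fin C | ∃ e : G.edgeSet, v ∈ e.1 ∧
              Fin.castLE hkC (c e) = Fin.castLE hkC j ∧ a ∉ L e} ⊆ ((L e)ᶜ : Finset (Fin C)) := by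
            rintro a ⟨e', he', hej', ha⟩
            have h3 : e' = e := by
              by_contra hne
              apply hc e' e
              · rw [SimpleGraph.lineGraph_adj_iff_exists]
                exact ⟨hne, v, he', he⟩
              · rw [hej]
                exact Fin.castLE_injective hkC hej'
            subst h3
            simpa using ha
          have h3 := Set.ncard_le_ncard h2 (Finset.finite_toSet _)
          rw [Set.ncard_coe_finset, Finset.card_compl, hL, Fintype.card_fin] at h3
          rw [← Nat.cast_sub hmC]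
          exact_mod_cast h3
        · have h2 : {a : Fin C | ∃ e : G.edgeSet, v ∈ e.1 ∧
              Fin.castLE hkC (c e) = Fin.castLE hkC j ∧ a ∉ L e} = ∅ := by
            ext a
            simp only [Set.mem_ofPred_eq, Set.mem_empty_iff_false, iff_false]
            rintro ⟨e, he, hej, _⟩
            exact h ⟨e, he, Fin.castLE_injective hkC hej⟩
          rw [h2, Set.ncard_empty, Nat.cast_zero]
          linarith
      refine (Finset.sum_le_sum fun j _ => h1 j).trans (le_of_eq ?_)
      rw [Finset.sum_const, Finset.card_univ, Fintype.card_fin, nsmul_eq_mul]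
    · intro i hi
      have h2 : {a : Fin C | ∃ e : G.edgeSet, v ∈ e.1 ∧
              Fin.castLE hkC (c e) = i ∧ a ∉ L e} = ∅ := by
        ext a
        simp only [Set.mem_ofPred_eq, Set.mem_empty_iff_false, iff_false]
        rintro ⟨e, he, hej, _⟩
        exact hi _ hej
      rw [h2, Set.ncard_empty, Nat.cast_zero]
  · intro e
    rw [sum_split hkC _ (m : ℝ)]
    · have h1 : ∀ j : Fin k, (free (fun e => Fin.castLE hkC (c e)) L e (Fin.castLE hkC j)) =
          free c L e j := by
        intro j
        ext a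
        unfold free
        simp only [Set.mem_ofPred_eq]
        constructor
        · rintro ⟨h2, h3⟩
          exact ⟨h2, fun f hf => h3 f (by rw [hf])⟩
        · rintro ⟨h2, h3⟩
          exact ⟨h2, fun f hf => h3 f (Fin.castLE_injective hkC hf)⟩
      simp only [h1]
      have h2 := hfree e
      set D := ∑ j : Fin k, ((free c L e j).ncard : ℝ)
      rw [mul_add, hCβ]
      rw [mul_add] at h2
      linarith
    · intro i hi
      have h2 : free (fun e => Fin.castLE hkC (c e)) L e i = ((L e : Finset (Fin C)) : Set _) := by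
        ext a
        unfold free
        simp only [Set.mem_ofPred_eq, Finset.mem_coe]
        exact ⟨fun h => h.1, fun h => ⟨h, fun f hf => (hi _ hf).elim⟩⟩
      rw [h2, Set.ncard_coe_finset, hL]

end Pool.Agent.J4.H80.LL
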