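import Pool.Agent.J4.H80.LL.D

/-!
# List edge colourings from locally diverse lists: lists of arbitrary sizes
-/

set_option autoImplicit false
set_option linter.unusedSectionVars false
set_option linter.unusedVariables false

namespace Pool.Agent.J4.H80.LL

open Finset

open Classical in
/-- **Main theorem** for lists of arbitrary sizes -/
theorem main_gen : ∃ K : ℝ, 1 ≤ K ∧ ∀ (V : Type) [Fintype V] (G : SimpleGraph V) (k C : ℕ),
    k ≤ C → ∀ c : G.edgeSet → Fin k, (∀ e e', G.lineGraph.Adj e e' → c e ≠ c e') →
    ∀ (L : G.edgeSet → Finset (Fin C)) (β : ℝ), 0 ≤ β →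
    (∀ v, ∑ e : G.edgeSet with v ∈ e.1, ((C : ℝ) - (L e).card) ≤ C * β) →
    (∀ e, (C : ℝ) * (β + K * (Real.sqrt (β * Real.log (Fintype.card V)) +
      Real.log (Fintype.card V))) ≤
        ((C : ℝ) - k) * (L e).card + ∑ j : Fin k, ((free c L e j).ncard : ℝ)) →
    ∃ f : G.edgeSet → Fin C, (∀ e, f e ∈ L e) ∧ ∀ e e', G.lineGraph.Adj e e' → f e ≠ f e' := by
  obtain ⟨K, hK, hmain⟩ := main_det
  refine ⟨K, hK, ?_⟩
  intro V _ G k C hkC c hc L β hβ hdeg hfree
  refine hmain V G C (fun e => Fin.castLE hkC (c e)) ?_ L β hβ ?_ ?_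
  · intro e e' h heq
    exact hc e e' h (Fin.castLE_injective hkC heq)
  · intro v
    refine le_trans ?_ (hdeg v)
    set E : Finset G.edgeSet := Finset.univ.filter (fun e => v ∈ e.1) with hE
    have hinj : Set.InjOn (fun e : G.edgeSet => Fin.castLE hkC (c e)) (E : Set G.edgeSet) := by
      intro e he e' he' heq
      rw [Finset.mem_coe, hE, Finset.mem_filter] at he he'
      by_contra hne
      apply hc e e'
      · rw [SimpleGraph.lineGraph_adj_iff_exists]
        exact ⟨hne, v, he.2, he'.2⟩
      · exact Fin.castLE_injective hkC heq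
    rw [← Finset.sum_subset (Finset.subset_univ (E.image (fun e => Fin.castLE hkC (c e))))]
    · rw [Finset.sum_image hinj]
      refine Finset.sum_le_sum fun e he => ?_
      rw [hE, Finset.mem_filter] at he
      have h2 : {a : Fin C | ∃ e' : G.edgeSet, v ∈ e'.1 ∧
          Fin.castLE hkC (c e') = Fin.castLE hkC (c e) ∧ a ∉ L e'} ⊆
            ((L e)ᶜ : Finset (Fin C)) := by
        rintro a ⟨e', he', hej', ha⟩
        have h3 : e' = e := by
          apply hinj
          · rw [Finset.mem_coe, hE, Finset.mem_filter]
            exact ⟨Finset.mem_univ _, he'⟩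
          · rw [Finset.mem_coe, hE, Finset.mem_filter]
            exact ⟨Finset.mem_univ _, he.2⟩
          · exact hej'
        subst h3
        simpa using ha
      have h3 := Set.ncard_le_ncard h2 (Finset.finite_toSet _)
      rw [Set.ncard_coe_finset, Finset.card_compl, Fintype.card_fin] at h3
      have hle : (L e).card ≤ C := (Finset.card_le_univ _).trans (by simp)
      rw [← Nat.cast_sub hle]
      exact_mod_cast h3
    · intro i _ hi
      have h2 : {a : Fin C | ∃ e : G.edgeSet, v ∈ e.1 ∧
              Fin.castLE hkC (c e) = i ∧ a ∉ L e} = ∅ := by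
        ext a
        simp only [Set.mem_ofPred_eq, Set.mem_empty_iff_false, iff_false]
        rintro ⟨e, he, hej, _⟩
        apply hi
        rw [Finset.mem_image]
        exact ⟨e, by rw [hE, Finset.mem_filter]; exact ⟨Finset.mem_univ _, he⟩, hej⟩
      rw [h2, Set.ncard_empty, Nat.cast_zero]
  · intro e
    rw [sum_split hkC _ ((L e).card : ℝ)]
    · have h1 : ∀ j : Fin k, (free (fun e => Fin.castLE hkC (c e)) L e (Fin.castLE hkC j)) =
          free c L e j := by
        intro j
        ext a
        unfold free
        simp only [Set.mem_ofPred_eq]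
        constructor
        · rintro ⟨h2, h3⟩
          exact ⟨h2, fun f hf => h3 f (by rw [hf])⟩
        · rintro ⟨h2, h3⟩
          exact ⟨h2, fun f hf => h3 f (Fin.castLE_injective hkC hf)⟩
      simp only [h1]
      have h2 := hfree e
      linarith
    · intro i hi
      have h2 : free (fun e => Fin.castLE hkC (c e)) L e i = ((L e : Finset (Fin C)) : Set _) := by
        ext a
        unfold free
        simp only [Set.mem_ofPred_eq, Finset.mem_coe]
        exact ⟨fun h => h.1, fun h => ⟨h, fun f hf => (hi _ hf).elim⟩⟩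
      rw [h2, Set.ncard_coe_finset]

end Pool.Agent.J4.H80.LL
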