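import Pool.Agent.J4.H80.LL.C
import Pool.Agent.J4.H80.LL.D

/-!
# Independent random lists
-/

set_option autoImplicit false
set_option linter.unusedSectionVars false
set_option linter.unusedVariables false

namespace Pool.Agent.J4.H80.LL

open Finset

open Classical in
/-- the edges of colour `j` adjacent to `e` -/
noncomputable def SS {V : Type} [Fintype V] {G : SimpleGraph V} {k : ℕ} (c : G.edgeSet → Fin k)
    (e : G.edgeSet) (j : Fin k) : Finset G.edgeSet :=
  Finset.univ.filter (fun f => c f = j ∧ G.lineGraph.Adj e f)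

section

variable {V : Type} [Fintype V] {G : SimpleGraph V} {k C : ℕ}

theorem mem_SS (c : G.edgeSet → Fin k) (e : G.edgeSet) (j : Fin k) (f : G.edgeSet) :
    f ∈ SS c e j ↔ c f = j ∧ G.lineGraph.Adj e f := by
  classical
  simp [SS]

theorem SS_card (c : G.edgeSet → Fin k) (hc : ∀ e e', G.lineGraph.Adj e e' → c e ≠ c e')
    (e : G.edgeSet) (j : Fin k) : (SS c e j).card ≤ 2 := by
  classical
  obtain ⟨⟨x, y⟩, hxy⟩ : ∃ p : V × V, s(p.1, p.2) = e.1 := by
    obtain ⟨e, he⟩ := e
    induction e using Sym2.ind with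
    | _ a b => exact ⟨(a, b), rfl⟩
  simp only at hxy
  have h1 : (SS c e j).card ≤ ({x, y} : Finset V).card := by
    apply Finset.card_le_card_of_injOn (fun f => if x ∈ f.1 then x else y)
    · intro f _
      simp only [Finset.coe_insert, Finset.coe_singleton, Set.mem_insert_iff,
        Set.mem_singleton_iff]
      split_ifs
      · exact Or.inl rfl
      · exact Or.inr rfl
    · intro f hf f' hf' heq
      rw [Finset.mem_coe, mem_SS] at hf hf'
      simp only at heq
      have key : ∀ f : G.edgeSet, G.lineGraph.Adj e f → x ∉ f.1 → y ∈ f.1 := by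
        intro f hef hx
        rw [SimpleGraph.lineGraph_adj_iff_exists] at hef
        obtain ⟨_, z, hz, hz'⟩ := hef
        rw [← hxy, Sym2.mem_iff] at hz
        rcases hz with rfl | rfl
        · exact (hx hz').elim
        · exact hz'
      have hcommon : ∃ z, z ∈ f.1 ∧ z ∈ f'.1 := by
        by_cases hx : x ∈ f.1
        · by_cases hx' : x ∈ f'.1
          · exact ⟨x, hx, hx'⟩
          · rw [if_pos hx, if_neg hx'] at heq
            refine ⟨x, hx, ?_⟩
            rw [heq]
            exact key f' hf'.2 hx'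
        · by_cases hx' : x ∈ f'.1
          · rw [if_neg hx, if_pos hx'] at heq
            refine ⟨y, key f hf.2 hx, ?_⟩
            rw [heq]
            exact hx'
          · exact ⟨y, key f hf.2 hx, key f' hf'.2 hx'⟩
      by_contra hne
      obtain ⟨z, hz, hz'⟩ := hcommon
      apply hc f f'
      · rw [SimpleGraph.lineGraph_adj_iff_exists]
        exact ⟨hne, z, hz, hz'⟩
      · rw [hf.1, hf'.1]
  refine h1.trans ?_
  exact Finset.card_le_two

theorem SS_disj (c : G.edgeSet → Fin k) (e : G.edgeSet) (i j : Fin k) (hij : i ≠ j) :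
    Disjoint (SS c e i) (SS c e j) := by
  rw [Finset.disjoint_left]
  intro f hf hf'
  rw [mem_SS] at hf hf'
  exact hij (hf.1.symm.trans hf'.1)

theorem e_notMem_SS (c : G.edgeSet → Fin k) (e : G.edgeSet) (j : Fin k) : e ∉ SS c e j := by
  intro h
  rw [mem_SS] at h
  exact h.2.ne rfl

theorem free_update [DecidableEq G.edgeSet] (c : G.edgeSet → Fin k)
    (L : G.edgeSet → Finset (Fin C)) (e : G.edgeSet) (A : Finset (Fin C)) (j : Fin k) :
    free c (Function.update L e A) e j =
      {a | a ∈ A ∧ j ≠ c e ∧ ∀ f ∈ SS c e j, a ∉ L f} := by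
  ext a
  unfold free
  simp only [Set.mem_ofPred_eq, Function.update_self]
  constructor
  · rintro ⟨h1, h2⟩
    refine ⟨h1, ?_, ?_⟩
    · intro h3
      have := h2 e h3.symm (Or.inl rfl)
      rw [Function.update_self] at this
      exact this h1
    · intro f hf
      rw [mem_SS] at hf
      have := h2 f hf.1 (Or.inr hf.2)
      rwa [Function.update_of_ne hf.2.ne'] at this
  · rintro ⟨h1, h2, h3⟩
    refine ⟨h1, ?_⟩
    rintro f hf (rfl | hef)
    · exact (h2 hf.symm).elim
    · rw [Function.update_of_ne hef.ne']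
      exact h3 f ((mem_SS c e j f).2 ⟨hf, hef⟩)

theorem exp_lin (x : ℝ) (h0 : 0 ≤ x) (h1 : x ≤ 1) : Real.exp (-x) ≤ 1 - x / 2 := by
  have h2 : Real.exp (-1) ≤ 1 / 2 := by
    rw [Real.exp_neg]
    have := Real.add_one_le_exp (1 : ℝ)
    rw [inv_le_comm₀ (Real.exp_pos _) (by norm_num)]
    linarith
  have h3 := convexOn_exp.2 (Set.mem_univ (-1 : ℝ)) (Set.mem_univ (0 : ℝ)) h0
    (by linarith : 0 ≤ 1 - x) (by ring)
  simp only [smul_eq_mul, mul_neg, mul_one, mul_zero, add_zero, Real.exp_zero] at h3
  nlinarith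

/-- the exponential moment of the diversity at an edge -/
theorem key_mgf [DecidableEq G.edgeSet] [Fintype G.edgeSet] (c : G.edgeSet → Fin k)
    (hc : ∀ e e', G.lineGraph.Adj e e' → c e ≠ c e')
    (w : G.edgeSet → Finset (Fin C) → ℝ) (hw0 : ∀ e A, 0 ≤ w e A) (hw1 : ∀ e, ∑ A, w e A = 1)
    (m : ℕ) (hm : 0 < m) (hwm : ∀ e A, w e A ≠ 0 → A.card = m) (ρ : ℝ) (hρ0 : 0 ≤ ρ)
    (hρ : ∀ e (a : Fin C), ρ ≤ ∑ A : Finset (Fin C), if a ∉ A then w e A else 0) (hρ1 : ρ ≤ 1)
    (e : G.edgeSet) :
    Ex w (fun L => Real.exp (-((∑ j : Fin k, ((free c L e j).ncard : ℝ)) / m))) ≤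
      Real.exp (-((k - 1) * ρ ^ 2 / 2)) := by
  have hm' : (0 : ℝ) < m := by exact_mod_cast hm
  rw [Ex_resample hw1 e]
  have main : ∀ A : Finset (Fin C), w e A ≠ 0 →
      Ex w (fun L => Real.exp (-((∑ j : Fin k,
        ((free c (Function.update L e A) e j).ncard : ℝ)) / m))) ≤
      Real.exp (-((k - 1) * ρ ^ 2 / 2)) := by
    intro A hA
    have hAm := hwm e A hA
    let W : Fin k → (G.edgeSet → Finset (Fin C)) → ℝ := fun j L =>
      ((free c (Function.update L e A) e j).ncard : ℝ)
    let Φ : Fin k → (G.edgeSet → Finset (Fin C)) → ℝ := fun j L => Real.exp (-(W j L / m))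
    have hW0 : ∀ j L, 0 ≤ W j L := fun j L => by positivity
    have hWm : ∀ j L, W j L ≤ m := by
      intro j L
      simp only [W]
      rw [free_update]
      have : ({a | a ∈ A ∧ j ≠ c e ∧ ∀ f ∈ SS c e j, a ∉ L f} : Set (Fin C)) ⊆ (A : Set (Fin C)) :=
        fun a ha => ha.1
      have h2 := Set.ncard_le_ncard this (Finset.finite_toSet A)
      rw [Set.ncard_coe_finset, hAm] at h2
      exact_mod_cast h2
    have hΦdep : ∀ j L M, (∀ f ∈ SS c e j, L f = M f) → Φ j L = Φ j M := by
      intro j L M hLM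
      simp only [Φ, W]
      rw [free_update, free_update]
      congr 5
      ext a
      simp only [Set.mem_ofPred_eq]
      refine and_congr_right fun _ => and_congr_right fun _ => ?_
      refine forall_congr' fun f => forall_congr' fun hf => ?_
      rw [hLM f hf]
    have h1 : Ex w (fun L => Real.exp (-((∑ j : Fin k,
        ((free c (Function.update L e A) e j).ncard : ℝ)) / m))) ≤
        Ex w (fun L => ∏ j ∈ Finset.univ.erase (c e), Φ j L) := by
      apply Ex_mono hw0
      intro L _
      simp only [Φ]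
      rw [← Real.exp_sum]
      apply Real.exp_le_exp.2
      rw [Finset.sum_neg_distrib, ← Finset.sum_div]
      apply neg_le_neg
      apply div_le_div_of_nonneg_right _ hm'.le
      exact Finset.sum_le_sum_of_subset_of_nonneg (Finset.erase_subset _ _)
        fun j _ _ => hW0 j L
    refine h1.trans ?_
    rw [Ex_prod hw1 (fun j => SS c e j) (fun i j hij => SS_disj c e i j hij) Φ hΦdep]
    have h2 : ∀ j ∈ Finset.univ.erase (c e), Ex w (Φ j) ≤ Real.exp (-(ρ ^ 2 / 2)) := by
      intro j hj
      have hjc : j ≠ c e := Finset.ne_of_mem_erase hj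
      have h3 : Ex w (Φ j) ≤ Ex w (fun L => 1 + (-(1 / (2 * m))) * W j L) := by
        apply Ex_mono hw0
        intro L _
        simp only [Φ]
        refine (exp_lin (W j L / m) (div_nonneg (hW0 j L) hm'.le)
          ((div_le_one hm').2 (hWm j L))).trans (le_of_eq ?_)
        field_simp
        ring
      rw [Ex_add, Ex_const hw1, Ex_mul] at h3
      have h4 : m * ρ ^ 2 ≤ Ex w (W j) := by
        have h5 : W j = fun L => ∑ a ∈ A, ∏ f ∈ SS c e j, if a ∉ L f then (1 : ℝ) else 0 := by
          funext L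
          simp only [W]
          rw [free_update]
          have h6 : ({a | a ∈ A ∧ j ≠ c e ∧ ∀ f ∈ SS c e j, a ∉ L f} : Set (Fin C)) =
              ((A.filter (fun a => ∀ f ∈ SS c e j, a ∉ L f) : Finset (Fin C)) : Set (Fin C)) := by
            ext a
            simp [hjc]
          rw [h6, Set.ncard_coe_finset, Finset.card_filter, Nat.cast_sum]
          refine Finset.sum_congr rfl fun a _ => ?_
          rw [Finset.prod_ite_zero]
          simp
        rw [h5, Ex_sum]
        have h6 : ∀ a ∈ A, ρ ^ 2 ≤ Ex w (fun L => ∏ f ∈ SS c e j,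
            if a ∉ L f then (1 : ℝ) else 0) := by
          intro a _
          rw [Ex_prod hw1 (fun f => ({f} : Finset G.edgeSet)) (fun i j hij => by simpa using hij)
            (fun f L => if a ∉ L f then (1 : ℝ) else 0)]
          · have h7 : ∀ f ∈ SS c e j, ρ ≤ Ex w (fun L => if a ∉ L f then (1 : ℝ) else 0) := by
              intro f _
              rw [Ex_coord hw1 f (fun B => if a ∉ B then (1 : ℝ) else 0)]
              refine (hρ f a).trans (le_of_eq ?_)
              refine Finset.sum_congr rfl fun B _ => ?_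
              split_ifs <;> simp
            calc ρ ^ 2 ≤ ρ ^ (SS c e j).card := pow_le_pow_of_le_one hρ0 hρ1 (SS_card c hc e j)
              _ = ∏ f ∈ SS c e j, ρ := by rw [Finset.prod_const]
              _ ≤ _ := Finset.prod_le_prod (fun _ _ => hρ0) h7
          · intro f L M hLM
            rw [hLM f (Finset.mem_singleton_self f)]
        calc (m : ℝ) * ρ ^ 2 = ∑ a ∈ A, ρ ^ 2 := by
              rw [Finset.sum_const, hAm, nsmul_eq_mul]
          _ ≤ _ := Finset.sum_le_sum h6
      have h5 : Ex w (Φ j) ≤ 1 - ρ ^ 2 / 2 := by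
        refine h3.trans ?_
        have h6 : 1 / (2 * (m : ℝ)) * (m * ρ ^ 2) ≤ 1 / (2 * m) * Ex w (W j) :=
          mul_le_mul_of_nonneg_left h4 (by positivity)
        have h7 : 1 / (2 * (m : ℝ)) * (m * ρ ^ 2) = ρ ^ 2 / 2 := by field_simp
        linarith
      have h6 := Real.add_one_le_exp (-(ρ ^ 2 / 2))
      linarith
    have h3 : ∏ j ∈ Finset.univ.erase (c e), Ex w (Φ j) ≤
        ∏ j ∈ Finset.univ.erase (c e), Real.exp (-(ρ ^ 2 / 2)) :=
      Finset.prod_le_prod (fun j _ => Ex_nonneg hw0 fun L => (Real.exp_pos _).le) h2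
    refine h3.trans (le_of_eq ?_)
    rw [Finset.prod_const, Finset.card_erase_of_mem (Finset.mem_univ _), Finset.card_univ,
      Fintype.card_fin, ← Real.exp_nat_mul]
    congr 1
    have hk : 1 ≤ k := (c e).pos
    rw [Nat.cast_sub hk]
    push_cast
    ring
  have h2 : ∑ A, w e A * Ex w (fun L => Real.exp (-((∑ j : Fin k,
        ((free c (Function.update L e A) e j).ncard : ℝ)) / m))) ≤
      ∑ A, w e A * Real.exp (-((k - 1) * ρ ^ 2 / 2)) := by
    refine Finset.sum_le_sum fun A _ => ?_
    by_cases hA : w e A = 0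
    · rw [hA]; simp
    · exact mul_le_mul_of_nonneg_left (main A hA) (hw0 e A)
  refine h2.trans (le_of_eq ?_)
  rw [← Finset.sum_mul, hw1, one_mul]

end

end Pool.Agent.J4.H80.LL
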