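import Pool.Agent.J4.H80.LL.F

/-!
# Independent random lists: the theorem
-/

set_option autoImplicit false
set_option linter.unusedSectionVars false
set_option linter.unusedVariables false

namespace Pool.Agent.J4.H80.LL

open Finset

theorem edge_card {V : Type} [Fintype V] (G : SimpleGraph V) [Fintype G.edgeSet] :
    (Fintype.card G.edgeSet : ℝ) ≤ (Fintype.card V : ℝ) ^ 2 / 2 := by
  classical
  have h3 : Fintype.card G.edgeSet ≤ (Fintype.card V).choose 2 := by
    rw [← SimpleGraph.edgeFinset_card]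
    exact SimpleGraph.card_edgeFinset_le_card_choose_two
  have h4 : (Fintype.card G.edgeSet : ℝ) ≤ ((Fintype.card V).choose 2 : ℝ) := by exact_mod_cast h3
  refine h4.trans ?_
  rw [Nat.cast_choose_two]
  have : (0 : ℝ) ≤ Fintype.card V := by positivity
  nlinarith

open Classical in
theorem rand_thm : ∃ K : ℝ, 3 ≤ K ∧ ∀ (V : Type) [Fintype V] (G : SimpleGraph V)
    [Fintype G.edgeSet] [DecidableEq G.edgeSet] (k C m : ℕ),
    m ≤ k → k ≤ C → ∀ c : G.edgeSet → Fin k, (∀ e e', G.lineGraph.Adj e e' → c e ≠ c e') →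
    ∀ w : G.edgeSet → Finset (Fin C) → ℝ, (∀ e A, 0 ≤ w e A) → (∀ e, ∑ A, w e A = 1) →
    (∀ e A, w e A ≠ 0 → A.card = m) → ∀ ρ : ℝ, 0 ≤ ρ →
    (∀ e (a : Fin C), ρ ≤ ∑ A : Finset (Fin C), if a ∉ A then w e A else 0) →
    (C : ℝ) * (k - m + K * (Real.sqrt (k * (1 - m / C) * Real.log (Fintype.card V)) +
      Real.log (Fintype.card V))) ≤ k * m * ρ ^ 2 / 8 →
    Ex w (fun L => if Col G L then 0 else 1) ≤ 1 / Fintype.card V := by
  obtain ⟨K₀, hK₀, hmain⟩ := main_unif
  refine ⟨K₀ + 2, by linarith, ?_⟩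
  intro V _ G _ _ k C m hmk hkC c hc w hw0 hw1 hwm ρ hρ0 hρ hthr
  by_cases hE : Nonempty G.edgeSet
  swap
  · have h1 : ∀ L : G.edgeSet → Finset (Fin C), Col G L := fun L =>
      ⟨fun e => (hE ⟨e⟩).elim, fun e => (hE ⟨e⟩).elim, fun e => (hE ⟨e⟩).elim⟩
    have h2 : (fun L : G.edgeSet → Finset (Fin C) => if Col G L then (0 : ℝ) else 1) =
        fun _ => 0 := by
      funext L
      rw [if_pos (h1 L)]
    rw [h2, Ex_const hw1]
    positivity
  obtain ⟨e₀⟩ := hE
  have hC0 : 0 < C := by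
    have := (c e₀).pos
    omega
  have hC : (0 : ℝ) < C := by exact_mod_cast hC0
  have hn2 : 2 ≤ Fintype.card V := by
    obtain ⟨e, he⟩ := e₀
    induction e using Sym2.ind with
    | _ a b =>
      have : 1 < Fintype.card V := Fintype.one_lt_card_iff.2 ⟨a, b, SimpleGraph.Adj.ne he⟩
      omega
  have hn2' : (2 : ℝ) ≤ Fintype.card V := by exact_mod_cast hn2
  have hnpos : (0 : ℝ) < Fintype.card V := by linarith
  set l := Real.log (Fintype.card V) with hl
  have hl0 : 0 < l := Real.log_pos (by linarith)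
  have hl69 : 0.69 < l := by
    have h1 : Real.log 2 ≤ l := Real.log_le_log (by norm_num) hn2'
    have := Real.log_two_gt_d9
    linarith
  have hρ1 : ρ ≤ 1 := by
    refine (hρ e₀ ⟨0, hC0⟩).trans ?_
    rw [← hw1 e₀]
    refine Finset.sum_le_sum fun A _ => ?_
    split_ifs
    all_goals first | exact hw0 e₀ A | exact le_rfl
  have hmkr : (m : ℝ) ≤ k := by exact_mod_cast hmk
  have hkCr : (k : ℝ) ≤ C := by exact_mod_cast hkC
  set u := Real.sqrt (k * (1 - m / C) * l) + l with hu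
  have hul : l ≤ u := by
    have := Real.sqrt_nonneg (k * (1 - m / C) * l)
    rw [hu]
    linarith
  have hm : 0 < m := by
    rcases Nat.eq_zero_or_pos m with h | h
    · exfalso
      have hu0 : 0 < u := by linarith
      have h1 : 0 < (C : ℝ) * (k + (K₀ + 2) * u) := by positivity
      have h2 : (k : ℝ) * m * ρ ^ 2 / 8 = 0 := by rw [h]; simp
      have h3 : (k : ℝ) - m = k := by rw [h]; simp
      rw [h2, h3] at hthr
      linarith
    · exact h
  have hm' : (0 : ℝ) < m := by exact_mod_cast hm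
  set thr := (C : ℝ) * (k - m + K₀ * u) with hthr'
  -- consequences of the threshold
  have hkey : 3 * l ≤ k * ρ ^ 2 / 8 := by
    have h1 : (C : ℝ) * (3 * l) ≤ (C : ℝ) * (k * ρ ^ 2 / 8) := by
      have h2 : (C : ℝ) * (3 * l) ≤ (C : ℝ) * (k - m + (K₀ + 2) * u) := by
        apply mul_le_mul_of_nonneg_left _ hC.le
        have h3 : 3 * l ≤ (K₀ + 2) * u := by
          have : 3 * l ≤ 3 * u := by linarith
          have h4 : 3 * u ≤ (K₀ + 2) * u := mul_le_mul_of_nonneg_right (by linarith) (by linarith)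
          linarith
        linarith
      have h3 : (k : ℝ) * m * ρ ^ 2 / 8 ≤ C * (k * ρ ^ 2 / 8) := by
        have : (0 : ℝ) ≤ k * ρ ^ 2 / 8 := by positivity
        have h4 : (m : ℝ) * (k * ρ ^ 2 / 8) ≤ C * (k * ρ ^ 2 / 8) :=
          mul_le_mul_of_nonneg_right (by linarith) this
        linarith
      linarith
    exact le_of_mul_le_mul_left h1 hC
  have hk2 : (2 : ℝ) ≤ k := by
    have h1 : (k : ℝ) * ρ ^ 2 ≤ k * 1 := by
      apply mul_le_mul_of_nonneg_left _ (by positivity)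
      nlinarith
    linarith
  have hthrm : thr / m ≤ k * ρ ^ 2 / 8 := by
    rw [div_le_iff₀ hm']
    have h1 : thr ≤ (C : ℝ) * (k - m + (K₀ + 2) * u) := by
      rw [hthr']
      apply mul_le_mul_of_nonneg_left _ hC.le
      have : 0 ≤ 2 * u := by linarith
      linarith
    linarith
  have hle : ∀ L : G.edgeSet → Finset (Fin C), wt w L ≠ 0 →
      (if Col G L then (0 : ℝ) else 1) ≤ ∑ e, Real.exp (thr / m) *
        Real.exp (-((∑ j : Fin k, ((free c L e j).ncard : ℝ)) / m)) := by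
    intro L hL
    have hcard : ∀ e, (L e).card = m := by
      intro e
      apply hwm e
      intro h0
      apply hL
      unfold wt
      exact Finset.prod_eq_zero (Finset.mem_univ e) h0
    split_ifs with hcol
    · positivity
    · have h1 : ∃ e, (∑ j : Fin k, ((free c L e j).ncard : ℝ)) < thr := by
        by_contra hcon
        push Not at hcon
        exact hcol (hmain V G k C m hkC c hc L hcard hcon)
      obtain ⟨e, he⟩ := h1
      have h2 : (1 : ℝ) ≤ Real.exp (thr / m) *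
          Real.exp (-((∑ j : Fin k, ((free c L e j).ncard : ℝ)) / m)) := by
        rw [← Real.exp_add]
        apply Real.one_le_exp
        rw [← sub_eq_add_neg, ← sub_div]
        exact div_nonneg (by linarith) hm'.le
      refine h2.trans ?_
      exact Finset.single_le_sum (f := fun e => Real.exp (thr / m) *
          Real.exp (-((∑ j : Fin k, ((free c L e j).ncard : ℝ)) / m)))
        (fun e _ => by positivity) (Finset.mem_univ e)
  refine (Ex_mono hw0 hle).trans ?_
  rw [Ex_sum]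
  have h3 : ∀ e ∈ (Finset.univ : Finset G.edgeSet), Ex w (fun L => Real.exp (thr / m) *
        Real.exp (-((∑ j : Fin k, ((free c L e j).ncard : ℝ)) / m))) ≤
        Real.exp (-(3 * l)) := by
    intro e _
    rw [Ex_mul]
    have h4 := key_mgf c hc w hw0 hw1 m hm hwm ρ hρ0 hρ hρ1 e
    refine (mul_le_mul_of_nonneg_left h4 (Real.exp_pos _).le).trans ?_
    rw [← Real.exp_add]
    apply Real.exp_le_exp.2
    have h5 : 0 ≤ (k / 2 - 1) * ρ ^ 2 := mul_nonneg (by linarith) (sq_nonneg ρ)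
    nlinarith
  refine (Finset.sum_le_sum h3).trans ?_
  rw [Finset.sum_const, Finset.card_univ, nsmul_eq_mul]
  have h6 : Real.exp (-(3 * l)) = ((Fintype.card V : ℝ) ^ 3)⁻¹ := by
    rw [Real.exp_neg, hl, show 3 * Real.log (Fintype.card V) =
      Real.log ((Fintype.card V : ℝ) ^ 3) from by rw [Real.log_pow]; norm_num,
      Real.exp_log (by positivity)]
  rw [h6]
  have h7 := edge_card G
  calc (Fintype.card G.edgeSet : ℝ) * ((Fintype.card V : ℝ) ^ 3)⁻¹
      ≤ (Fintype.card V : ℝ) ^ 2 / 2 * ((Fintype.card V : ℝ) ^ 3)⁻¹ :=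
        mul_le_mul_of_nonneg_right h7 (by positivity)
    _ = 1 / Fintype.card V / 2 := by field_simp
    _ ≤ 1 / Fintype.card V := by
        have : 0 < 1 / (Fintype.card V : ℝ) := by positivity
        linarith

open Classical in
/-- **Independent random lists** -/
theorem rand_main : ∃ K : ℝ, 1 ≤ K ∧ ∀ (V : Type) [Fintype V] (G : SimpleGraph V)
    [Fintype G.edgeSet] [DecidableEq G.edgeSet] (k C m : ℕ),
    m ≤ k → k ≤ C → G.lineGraph.Colorable k →
    ∀ w : G.edgeSet → Finset (Fin C) → ℝ, (∀ e A, 0 ≤ w e A) → (∀ e, ∑ A, w e A = 1) →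
    (∀ e A, w e A ≠ 0 → A.card = m) → ∀ ρ : ℝ, 0 < ρ →
    (∀ e (a : Fin C), ρ ≤ ∑ A : Finset (Fin C), if a ∉ A then w e A else 0) →
    16 * C * ((k : ℝ) - m) ≤ k * m * ρ ^ 2 →
    K * C * (C - m) * Real.log (Fintype.card V) ≤ k ^ 3 * ρ ^ 4 →
    Ex w (fun L => if Col G L then 0 else 1) ≤ 1 / Fintype.card V := by
  obtain ⟨K, hK, hmain⟩ := rand_thm
  refine ⟨1300 * K ^ 2, by nlinarith, ?_⟩
  intro V _ G _ _ k C m hmk hkC hcol w hw0 hw1 hwm ρ hρ hρw hcond1 hcond2
  by_cases hE : Nonempty G.edgeSet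
  swap
  · have h1 : ∀ L : G.edgeSet → Finset (Fin C), Col G L := fun L =>
      ⟨fun e => (hE ⟨e⟩).elim, fun e => (hE ⟨e⟩).elim, fun e => (hE ⟨e⟩).elim⟩
    have h2 : (fun L : G.edgeSet → Finset (Fin C) => if Col G L then (0 : ℝ) else 1) =
        fun _ => 0 := by
      funext L
      rw [if_pos (h1 L)]
    rw [h2, Ex_const hw1]
    positivity
  obtain ⟨e₀⟩ := hE
  obtain ⟨c⟩ := hcol
  have hc : ∀ e e', G.lineGraph.Adj e e' → c e ≠ c e' := fun e e' h => c.valid h
  refine hmain V G k C m hmk hkC c hc w hw0 hw1 hwm ρ hρ.le hρw ?_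
  have hC0 : 0 < C := by
    have := (c e₀).pos
    omega
  have hC : (0 : ℝ) < C := by exact_mod_cast hC0
  have hmkr : (m : ℝ) ≤ k := by exact_mod_cast hmk
  have hkCr : (k : ℝ) ≤ C := by exact_mod_cast hkC
  have hk0 : (0 : ℝ) < k := by
    have := (c e₀).pos
    exact_mod_cast this
  have hl0 : 0 ≤ Real.log (Fintype.card V) := Real.log_natCast_nonneg _
  set l := Real.log (Fintype.card V) with hl
  have hρ1 : ρ ≤ 1 := by
    refine (hρw e₀ ⟨0, hC0⟩).trans ?_
    rw [← hw1 e₀]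
    refine Finset.sum_le_sum fun A _ => ?_
    split_ifs
    all_goals first | exact hw0 e₀ A | exact le_rfl
  -- the average of the probabilities
  have hav : C * ρ ≤ C - m := by
    have h1 : ∑ a : Fin C, ρ ≤ ∑ a : Fin C, ∑ A : Finset (Fin C), if a ∉ A then w e₀ A else 0 :=
      Finset.sum_le_sum fun a _ => hρw e₀ a
    rw [Finset.sum_const, Finset.card_univ, Fintype.card_fin, nsmul_eq_mul, Finset.sum_comm] at h1
    refine h1.trans ?_
    have h2 : ∀ A : Finset (Fin C), (∑ a : Fin C, if a ∉ A then w e₀ A else 0) =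
        w e₀ A * (C - m) := by
      intro A
      by_cases h0 : w e₀ A = 0
      · simp [h0]
      · have h3 := hwm e₀ A h0
        rw [← Finset.sum_filter, Finset.sum_const, nsmul_eq_mul]
        have h4 : (Finset.univ.filter (fun a : Fin C => a ∉ A)) = Aᶜ := by
          ext a
          simp
        rw [h4, Finset.card_compl, h3, Fintype.card_fin, Nat.cast_sub (by omega)]
        ring
    simp only [h2]
    rw [← Finset.sum_mul, hw1, one_mul]
  have hρ2 : ρ ^ 2 ≤ 1 := by nlinarith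
  have hρ2' : 0 ≤ ρ ^ 2 := sq_nonneg ρ
  -- m is close to k
  have hm1 : (16 : ℝ) / 17 * k ≤ m := by
    have h1 : (k : ℝ) * m * ρ ^ 2 ≤ C * m := by
      have h2 : (k : ℝ) * m * ρ ^ 2 ≤ k * m * 1 := mul_le_mul_of_nonneg_left hρ2 (by positivity)
      have h3 : (k : ℝ) * m ≤ C * m := mul_le_mul_of_nonneg_right hkCr (by positivity)
      linarith
    have h2 : (C : ℝ) * (16 * (k - m)) ≤ C * m := by linarith
    have h3 := le_of_mul_le_mul_left h2 hC
    linarith
  have hCm : 0 ≤ (C : ℝ) - m := by linarith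
  have hdiv : (k : ℝ) * (1 - m / C) = k * (C - m) / C := by field_simp
  -- the square root
  have hs1 : (C : ℝ) * (K * Real.sqrt (k * (1 - m / C) * l)) ≤ k * m * ρ ^ 2 / 32 := by
    have h0 : (0 : ℝ) ≤ k * m * ρ ^ 2 / 32 := by positivity
    have h1 : Real.sqrt (k * (1 - m / C) * l) ≤ (k * m * ρ ^ 2 / 32) / (C * K) := by
      apply Real.sqrt_le_iff.2
      refine ⟨by positivity, ?_⟩
      rw [hdiv, div_pow, le_div_iff₀ (by positivity)]
      have e1 : k * (C - m) / C * l * (C * K) ^ 2 = K ^ 2 * k * (C * (C - m) * l) := by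
        field_simp
      rw [e1]
      have h2 : C * (C - m) * l ≤ k ^ 3 * ρ ^ 4 / (1300 * K ^ 2) := by
        rw [le_div_iff₀ (by positivity)]
        linarith
      have h3 : K ^ 2 * k * (C * (C - m) * l) ≤ K ^ 2 * k * (k ^ 3 * ρ ^ 4 / (1300 * K ^ 2)) :=
        mul_le_mul_of_nonneg_left h2 (by positivity)
      refine h3.trans ?_
      have e2 : K ^ 2 * k * (k ^ 3 * ρ ^ 4 / (1300 * K ^ 2)) = k ^ 4 * ρ ^ 4 / 1300 := by
        have : K ≠ 0 := by linarith
        field_simp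
      rw [e2]
      have h4 : ((16 : ℝ) / 17 * k) ^ 2 ≤ (m : ℝ) ^ 2 := pow_le_pow_left₀ (by positivity) hm1 2
      have h5 : (k : ℝ) ^ 2 * ρ ^ 4 * ((16 / 17 * k) ^ 2) ≤ k ^ 2 * ρ ^ 4 * m ^ 2 :=
        mul_le_mul_of_nonneg_left h4 (by positivity)
      have e3 : ((k : ℝ) * m * ρ ^ 2 / 32) ^ 2 = k ^ 2 * ρ ^ 4 * m ^ 2 / 1024 := by ring
      rw [e3]
      have h6 : 0 ≤ (k : ℝ) ^ 4 * ρ ^ 4 := by positivity
      nlinarith
    have h2 : (C : ℝ) * (K * Real.sqrt (k * (1 - m / C) * l)) ≤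
        C * (K * ((k * m * ρ ^ 2 / 32) / (C * K))) :=
      mul_le_mul_of_nonneg_left (mul_le_mul_of_nonneg_left h1 (by linarith)) hC.le
    refine h2.trans (le_of_eq ?_)
    have : K ≠ 0 := by linarith
    field_simp
  have hs2 : (C : ℝ) * (K * l) ≤ k * m * ρ ^ 2 / 32 := by
    -- from the second condition and `C ρ ≤ C - m`
    have h1 : 1300 * K ^ 2 * C * (C * ρ) * l ≤ k ^ 3 * ρ ^ 4 := by
      refine le_trans ?_ hcond2
      exact mul_le_mul_of_nonneg_right (mul_le_mul_of_nonneg_left hav (by positivity)) hl0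
    have h2 : ρ * (1300 * K ^ 2 * C * C * l) ≤ ρ * (k ^ 3 * ρ ^ 3) := by
      have e1 : ρ * (1300 * K ^ 2 * C * C * l) = 1300 * K ^ 2 * C * (C * ρ) * l := by ring
      have e2 : ρ * (k ^ 3 * ρ ^ 3) = k ^ 3 * ρ ^ 4 := by ring
      rw [e1, e2]
      exact h1
    have h3 := le_of_mul_le_mul_left h2 hρ
    have h4 : (k : ℝ) ^ 3 * ρ ^ 3 ≤ C * (k ^ 2 * ρ ^ 2) := by
      have h5 : (k : ℝ) * ρ ≤ C := by
        have : (k : ℝ) * ρ ≤ k * 1 := mul_le_mul_of_nonneg_left hρ1 hk0.le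
        linarith
      have h6 : (k : ℝ) * ρ * (k ^ 2 * ρ ^ 2) ≤ C * (k ^ 2 * ρ ^ 2) :=
        mul_le_mul_of_nonneg_right h5 (by positivity)
      have e1 : (k : ℝ) ^ 3 * ρ ^ 3 = (k : ℝ) * ρ * (k ^ 2 * ρ ^ 2) := by ring
      rw [e1]
      exact h6
    have h5 : (C : ℝ) * (1300 * K ^ 2 * C * l) ≤ C * (k ^ 2 * ρ ^ 2) := by
      have e1 : (C : ℝ) * (1300 * K ^ 2 * C * l) = 1300 * K ^ 2 * C * C * l := by ring
      rw [e1]
      exact h3.trans h4
    have h6 := le_of_mul_le_mul_left h5 hC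
    have h7 : (16 : ℝ) / 17 * (k ^ 2 * ρ ^ 2) ≤ k * m * ρ ^ 2 := by
      have h8 : (16 : ℝ) / 17 * k * (k * ρ ^ 2) ≤ m * (k * ρ ^ 2) :=
        mul_le_mul_of_nonneg_right hm1 (by positivity)
      have e1 : (16 : ℝ) / 17 * k * (k * ρ ^ 2) = (16 : ℝ) / 17 * (k ^ 2 * ρ ^ 2) := by ring
      have e2 : (m : ℝ) * (k * ρ ^ 2) = k * m * ρ ^ 2 := by ring
      rw [e1, e2] at h8
      exact h8
    have h8 : 0 ≤ (C : ℝ) * l := by positivity
    have hKK : K ≤ K ^ 2 := by
      have : K * 1 ≤ K * K := mul_le_mul_of_nonneg_left (by linarith) (by linarith)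
      linarith [sq K]
    have h9 : 1300 * (C * (K * l)) ≤ 1300 * K ^ 2 * C * l := by
      have h10 : K * (C * l) ≤ K ^ 2 * (C * l) :=
        mul_le_mul_of_nonneg_right hKK h8
      have e1 : 1300 * (C * (K * l)) = 1300 * (K * (C * l)) := by ring
      have e2 : 1300 * K ^ 2 * C * l = 1300 * (K ^ 2 * (C * l)) := by ring
      rw [e1, e2]
      linarith
    have h12 : 0 ≤ (k : ℝ) * m * ρ ^ 2 := by positivity
    linarith
  have e1 : (C : ℝ) * (k - m + K * (Real.sqrt (k * (1 - m / C) * l) + l)) =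
      C * (k - m) + C * (K * Real.sqrt (k * (1 - m / C) * l)) + C * (K * l) := by ring
  rw [e1]
  linarith

end Pool.Agent.J4.H80.LL
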