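import Pool.Agent.J4.H80.LL.F

/-!
# Greedy colourings from random lists
-/

set_option autoImplicit false
set_option linter.unusedSectionVars false
set_option linter.unusedVariables false

namespace Pool.Agent.J4.H80.LL

open Finset

/-- the edges in `T` can be coloured -/
def ColT {V : Type} {G : SimpleGraph V} {C : ℕ} (T : Finset G.edgeSet)
    (L : G.edgeSet → Finset (Fin C)) : Prop :=
  ∃ f : G.edgeSet → Fin C, (∀ e ∈ T, f e ∈ L e) ∧
    ∀ e ∈ T, ∀ e' ∈ T, G.lineGraph.Adj e e' → f e ≠ f e'

theorem ColT_congr {V : Type} {G : SimpleGraph V} {C : ℕ} (T : Finset G.edgeSet)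
    (L M : G.edgeSet → Finset (Fin C)) (h : ∀ e ∈ T, L e = M e) (hL : ColT T L) : ColT T M := by
  obtain ⟨f, hf1, hf2⟩ := hL
  exact ⟨f, fun e he => by rw [← h e he]; exact hf1 e he, hf2⟩

open Classical in
theorem nbr_card {V : Type} [Fintype V] {G : SimpleGraph V} {k : ℕ} (c : G.edgeSet → Fin k)
    (hc : ∀ e e', G.lineGraph.Adj e e' → c e ≠ c e') (e : G.edgeSet) (T : Finset G.edgeSet) :
    (T.filter (fun f => G.lineGraph.Adj e f)).card ≤ 2 * k := by
  have h1 : T.filter (fun f => G.lineGraph.Adj e f) ⊆
      (Finset.univ : Finset (Fin k)).biUnion (fun j => SS c e j) := by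
    intro f hf
    rw [Finset.mem_filter] at hf
    rw [Finset.mem_biUnion]
    exact ⟨c f, Finset.mem_univ _, (mem_SS c e (c f) f).2 ⟨rfl, hf.2⟩⟩
  refine (Finset.card_le_card h1).trans (Finset.card_biUnion_le.trans ?_)
  refine (Finset.sum_le_sum fun j _ => SS_card c hc e j).trans ?_
  rw [Finset.sum_const, Finset.card_univ, Fintype.card_fin, smul_eq_mul, mul_comm]

open Classical in
theorem greedy {V : Type} [Fintype V] (G : SimpleGraph V)
    [Fintype G.edgeSet] [DecidableEq G.edgeSet] (k C : ℕ) (hkC : k ≤ C)
    (c : G.edgeSet → Fin k) (hc : ∀ e e', G.lineGraph.Adj e e' → c e ≠ c e')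
    (w : G.edgeSet → Finset (Fin C) → ℝ) (hw0 : ∀ e A, 0 ≤ w e A) (hw1 : ∀ e, ∑ A, w e A = 1)
    (η : ℝ) (hη : ∀ e (U : Finset (Fin C)), U.card ≤ 2 * k →
      ∑ A : Finset (Fin C), (if A ⊆ U then w e A else 0) ≤ η) (T : Finset G.edgeSet) :
    Ex w (fun L => if ColT T L then 0 else 1) ≤ T.card * η := by
  by_cases hE : Nonempty G.edgeSet
  swap
  · have h1 : ∀ L : G.edgeSet → Finset (Fin C), ColT T L := fun L =>
      ⟨fun e => (hE ⟨e⟩).elim, fun e => (hE ⟨e⟩).elim, fun e => (hE ⟨e⟩).elim⟩
    have h2 : (fun L : G.edgeSet → Finset (Fin C) => if ColT T L then (0 : ℝ) else 1) =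
        fun _ => 0 := by
      funext L
      rw [if_pos (h1 L)]
    have h3 : T = ∅ := by
      ext e
      exact (hE ⟨e⟩).elim
    rw [h2, Ex_const hw1, h3]
    simp
  obtain ⟨e₀⟩ := hE
  have hne : Nonempty (Fin C) := ⟨Fin.castLE hkC (c e₀)⟩
  induction T using Finset.induction_on with
  | empty =>
    have h1 : ∀ L : G.edgeSet → Finset (Fin C), ColT ∅ L := fun L =>
      ⟨fun _ => hne.some, fun e he => (Finset.notMem_empty e he).elim,
        fun e he => (Finset.notMem_empty e he).elim⟩
    have h2 : (fun L : G.edgeSet → Finset (Fin C) => if ColT ∅ L then (0 : ℝ) else 1) =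
        fun _ => 0 := by
      funext L
      rw [if_pos (h1 L)]
    rw [h2, Ex_const hw1]
    simp
  | insert e T he ih =>
    let N : (G.edgeSet → Finset (Fin C)) → G.edgeSet → Finset (Fin C) :=
      fun L g => if g ∈ T then L g else ∅
    have hN1 : ∀ L, ∀ g ∈ T, N L g = L g := fun L g hg => if_pos hg
    have hN2 : ∀ L M, (∀ g ∈ T, L g = M g) → N L = N M := by
      intro L M h
      funext g
      simp only [N]
      split_ifs with hg
      · exact h g hg
      · rfl
    let F : (G.edgeSet → Finset (Fin C)) → G.edgeSet → Fin C := fun L =>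
      if h : ColT T (N L) then h.choose else fun _ => hne.some
    have hF2 : ∀ L M, (∀ g ∈ T, L g = M g) → F L = F M := by
      intro L M h
      simp only [F]
      rw [hN2 L M h]
    have hF1 : ∀ L, ColT T L → (∀ g ∈ T, F L g ∈ L g) ∧
        ∀ g ∈ T, ∀ g' ∈ T, G.lineGraph.Adj g g' → F L g ≠ F L g' := by
      intro L hL
      have h1 : ColT T (N L) := ColT_congr T L (N L) (fun g hg => (hN1 L g hg).symm) hL
      have h2 := h1.choose_spec
      have h3 : F L = h1.choose := by
        simp only [F]
        rw [dif_pos h1]
      rw [h3]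
      exact ⟨fun g hg => by rw [← hN1 L g hg]; exact h2.1 g hg, h2.2⟩
    let U : (G.edgeSet → Finset (Fin C)) → Finset (Fin C) := fun L =>
      (T.filter (fun f => G.lineGraph.Adj e f)).image (F L)
    have hU1 : ∀ L, (U L).card ≤ 2 * k := fun L =>
      Finset.card_image_le.trans (nbr_card c hc e T)
    have hU2 : ∀ L M, (∀ g ∈ T, L g = M g) → U L = U M := by
      intro L M h
      simp only [U]
      rw [hF2 L M h]
    have hstep : ∀ L : G.edgeSet → Finset (Fin C), (if ColT (insert e T) L then (0 : ℝ) else 1) ≤
        (if ColT T L then 0 else 1) + (if L e ⊆ U L then 1 else 0) := by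
      intro L
      by_cases h1 : ColT (insert e T) L
      · rw [if_pos h1]
        split_ifs <;> norm_num
      · by_cases h2 : ColT T L
        · have h3 : L e ⊆ U L := by
            by_contra hcon
            apply h1
            rw [Finset.not_subset] at hcon
            obtain ⟨a, ha, haU⟩ := hcon
            obtain ⟨h4, h5⟩ := hF1 L h2
            have haU' : ∀ g ∈ T, G.lineGraph.Adj e g → F L g ≠ a := by
              intro g hg hadj heq
              apply haU
              exact Finset.mem_image.2 ⟨g, Finset.mem_filter.2 ⟨hg, hadj⟩, heq⟩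
            have hne' : ∀ g ∈ T, g ≠ e := fun g hg h => he (h ▸ hg)
            refine ⟨Function.update (F L) e a, ?_, ?_⟩
            · intro g hg
              rcases Finset.mem_insert.1 hg with hge | hgT
              · rw [hge, Function.update_self]
                exact ha
              · rw [Function.update_of_ne (hne' g hgT)]
                exact h4 g hgT
            · intro g hg g' hg' hadj
              rcases Finset.mem_insert.1 hg with hge | hgT
              · rcases Finset.mem_insert.1 hg' with hge' | hgT'
                · rw [hge, hge'] at hadj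
                  exact (hadj.ne rfl).elim
                · rw [hge] at hadj
                  rw [hge, Function.update_self, Function.update_of_ne (hne' g' hgT')]
                  exact (haU' g' hgT' hadj).symm
              · rcases Finset.mem_insert.1 hg' with hge' | hgT'
                · rw [hge'] at hadj
                  rw [hge', Function.update_self, Function.update_of_ne (hne' g hgT)]
                  exact haU' g hgT hadj.symm
                · rw [Function.update_of_ne (hne' g hgT), Function.update_of_ne (hne' g' hgT')]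
                  exact h5 g hgT g' hgT' hadj
          rw [if_pos h3]
          split_ifs <;> norm_num
        · rw [if_neg h1, if_neg h2]
          split_ifs <;> norm_num
    refine (Ex_mono hw0 fun L _ => hstep L).trans ?_
    rw [Ex_add]
    have h4 : Ex w (fun L => if L e ⊆ U L then (1 : ℝ) else 0) ≤ η := by
      rw [Ex_resample hw1 e]
      have h5 : ∀ A : Finset (Fin C), Ex w (fun L => if Function.update L e A e ⊆
          U (Function.update L e A) then (1 : ℝ) else 0) =
          Ex w (fun L => if A ⊆ U L then (1 : ℝ) else 0) := by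
        intro A
        congr 1
        funext L
        rw [Function.update_self, hU2 (Function.update L e A) L]
        intro g hg
        have hge : g ≠ e := fun h => he (h ▸ hg)
        exact Function.update_of_ne hge _ _
      simp only [h5]
      have h6 : ∑ A, w e A * Ex w (fun L => if A ⊆ U L then (1 : ℝ) else 0) =
          Ex w (fun L => ∑ A, if A ⊆ U L then w e A else 0) := by
        rw [Ex_sum]
        refine Finset.sum_congr rfl fun A _ => ?_
        rw [← Ex_mul]
        congr 1
        funext L
        split_ifs <;> simp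
      rw [h6]
      refine (Ex_mono hw0 (Ψ := fun _ => η) fun L _ => hη e (U L) (hU1 L)).trans ?_
      rw [Ex_const hw1]
    rw [Finset.card_insert_of_notMem he]
    push_cast
    linarith

end Pool.Agent.J4.H80.LL
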