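import Pool.Agent.J4.H80.LL.H
import Pool.Agent.J4.H80.LL.I

/-!
# Uniformly random lists and perturbed lists
-/

set_option autoImplicit false
set_option linter.unusedSectionVars false
set_option linter.unusedVariables false

namespace Pool.Agent.J4.H80.LL

open Finset

/-- the uniform distribution on the subsets with `m` elements -/
noncomputable def wu (C m : ℕ) (A : Finset (Fin C)) : ℝ :=
  if A.card = m then 1 / (C.choose m : ℝ) else 0

theorem wu_nonneg (C m : ℕ) (A : Finset (Fin C)) : 0 ≤ wu C m A := by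
  unfold wu
  split_ifs <;> positivity

theorem wu_sum {C m : ℕ} (hmC : m ≤ C) : ∑ A, wu C m A = 1 := by
  unfold wu
  rw [← Finset.sum_filter]
  have h1 : (Finset.univ.filter (fun A : Finset (Fin C) => A.card = m)) =
      Finset.powersetCard m Finset.univ := by
    ext A
    simp [Finset.mem_powersetCard]
  rw [h1, Finset.sum_const, Finset.card_powersetCard, Finset.card_univ, Fintype.card_fin,
    nsmul_eq_mul]
  have : (0 : ℝ) < C.choose m := by exact_mod_cast Nat.choose_pos hmC
  field_simp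

theorem wu_notMem {C m : ℕ} (hmC : m ≤ C) (a : Fin C) :
    (∑ A : Finset (Fin C), if a ∉ A then wu C m A else 0) = (C - m) / C := by
  unfold wu
  have hC : 0 < C := a.pos
  have h0 : ∀ A : Finset (Fin C), (if a ∉ A then (if A.card = m then 1 / (C.choose m : ℝ) else 0)
      else 0) = if (A.card = m ∧ a ∉ A) then 1 / (C.choose m : ℝ) else 0 := by
    intro A
    by_cases h1 : a ∉ A <;> by_cases h2 : A.card = m <;> simp [h1, h2]
  simp only [h0]
  rw [← Finset.sum_filter]
  have h1 : (Finset.univ.filter (fun A : Finset (Fin C) => A.card = m ∧ a ∉ A)) =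
      Finset.powersetCard m (Finset.univ.erase a) := by
    ext A
    rw [Finset.mem_filter, Finset.mem_powersetCard]
    constructor
    · rintro ⟨_, h2, h3⟩
      exact ⟨fun x hx => Finset.mem_erase.2 ⟨fun h => h3 (h ▸ hx), Finset.mem_univ _⟩, h2⟩
    · rintro ⟨h2, h3⟩
      exact ⟨Finset.mem_univ _, h3, fun h => (Finset.mem_erase.1 (h2 h)).1 rfl⟩
  rw [h1, Finset.sum_const, Finset.card_powersetCard, Finset.card_erase_of_mem (Finset.mem_univ _),
    Finset.card_univ, Fintype.card_fin, nsmul_eq_mul]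
  have h2 : (C - 1).choose m * C = C.choose m * (C - m) := by
    obtain ⟨D, rfl⟩ : ∃ D, C = D + 1 := ⟨C - 1, by omega⟩
    have := Nat.choose_mul_succ_eq D m
    simpa using this
  have h3 : (((C - 1).choose m : ℕ) : ℝ) * C = C.choose m * (C - m) := by
    rw [← Nat.cast_sub hmC]
    exact_mod_cast h2
  have hC' : (0 : ℝ) < C := by exact_mod_cast hC
  have h4 : (0 : ℝ) < C.choose m := by exact_mod_cast Nat.choose_pos hmC
  rw [mul_one_div, div_eq_div_iff h4.ne' hC'.ne']
  rw [h3]
  ring

theorem desc_le {U C : ℕ} (hUC : U ≤ C) (m : ℕ) :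
    U.descFactorial m * C ^ m ≤ C.descFactorial m * U ^ m := by
  induction m with
  | zero => simp
  | succ m ih =>
    rw [Nat.descFactorial_succ, Nat.descFactorial_succ, pow_succ, pow_succ]
    have h1 : (U - m) * C ≤ (C - m) * U := by
      rcases le_total U m with h | h
      · rw [Nat.sub_eq_zero_of_le h, zero_mul]
        exact Nat.zero_le _
      · rw [Nat.sub_mul, Nat.sub_mul]
        have h2 : m * U ≤ m * C := Nat.mul_le_mul_left m hUC
        have h3 : U * C = C * U := Nat.mul_comm U C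
        omega
    calc (U - m) * U.descFactorial m * (C ^ m * C)
        = ((U - m) * C) * (U.descFactorial m * C ^ m) := by ring
      _ ≤ ((C - m) * U) * (C.descFactorial m * U ^ m) := Nat.mul_le_mul h1 ih
      _ = (C - m) * C.descFactorial m * (U ^ m * U) := by ring

theorem choose_le {U C : ℕ} (hUC : U ≤ C) (m : ℕ) :
    U.choose m * C ^ m ≤ C.choose m * U ^ m := by
  have h1 := desc_le hUC m
  rw [Nat.descFactorial_eq_factorial_mul_choose, Nat.descFactorial_eq_factorial_mul_choose,
    mul_assoc, mul_assoc] at h1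
  exact Nat.le_of_mul_le_mul_left h1 (Nat.factorial_pos m)

theorem wu_subset {C m : ℕ} (hmC : m ≤ C) (hC : 0 < C) (U : Finset (Fin C)) :
    (∑ A : Finset (Fin C), if A ⊆ U then wu C m A else 0) ≤ ((U.card : ℝ) / C) ^ m := by
  unfold wu
  have h0 : ∀ A : Finset (Fin C), (if A ⊆ U then (if A.card = m then 1 / (C.choose m : ℝ) else 0)
      else 0) = if (A.card = m ∧ A ⊆ U) then 1 / (C.choose m : ℝ) else 0 := by
    intro A
    by_cases h1 : A ⊆ U <;> by_cases h2 : A.card = m <;> simp [h1, h2]
  simp only [h0]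
  rw [← Finset.sum_filter]
  have h1 : (Finset.univ.filter (fun A : Finset (Fin C) => A.card = m ∧ A ⊆ U)) =
      Finset.powersetCard m U := by
    ext A
    rw [Finset.mem_filter, Finset.mem_powersetCard]
    constructor
    · rintro ⟨_, h2, h3⟩
      exact ⟨h3, h2⟩
    · rintro ⟨h2, h3⟩
      exact ⟨Finset.mem_univ _, h3, h2⟩
  rw [h1, Finset.sum_const, Finset.card_powersetCard, nsmul_eq_mul]
  have hUC : U.card ≤ C := (Finset.card_le_univ U).trans (by simp)
  have h2 := choose_le hUC m
  have h2' : ((U.card.choose m : ℕ) : ℝ) * (C : ℝ) ^ m ≤ C.choose m * (U.card : ℝ) ^ m := by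
    exact_mod_cast h2
  have hC' : (0 : ℝ) < C := by exact_mod_cast hC
  have h4 : (0 : ℝ) < C.choose m := by exact_mod_cast Nat.choose_pos hmC
  rw [mul_one_div, div_pow, div_le_div_iff₀ h4 (by positivity)]
  linarith

/-- the perturbed lists: the list `B` is kept with probability `1 - ε`, and replaced by a
uniformly random one with probability `ε` -/
noncomputable def wp (C m : ℕ) (ε : ℝ) (B A : Finset (Fin C)) : ℝ :=
  (1 - ε) * (if A = B then 1 else 0) + ε * wu C m A

open Classical in
/-- **Perturbed lists** -/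
theorem pert_main : ∃ K : ℝ, 1 ≤ K ∧ ∀ (V : Type) [Fintype V] (G : SimpleGraph V)
    [Fintype G.edgeSet] [DecidableEq G.edgeSet] (k C m : ℕ),
    m ≤ k → k ≤ C → G.lineGraph.Colorable k →
    ∀ L₀ : G.edgeSet → Finset (Fin C), (∀ e, (L₀ e).card = m) → ∀ ε : ℝ, 0 < ε → ε ≤ 1 →
    16 * C ^ 3 * ((k : ℝ) - m) ≤ k * m * ε ^ 2 * (C - m) ^ 2 →
    K * C ^ 5 * Real.log (Fintype.card V) ≤ ε ^ 4 * k ^ 3 * (C - m) ^ 3 →
    Ex (fun e => wp C m ε (L₀ e)) (fun L => if Col G L then 0 else 1) ≤
      1 / Fintype.card V := by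
  obtain ⟨K, hK, hmain⟩ := rand_main
  refine ⟨K, hK, ?_⟩
  intro V _ G _ _ k C m hmk hkC hcol L₀ hL₀ ε hε0 hε1 hc1 hc2
  have hmC : m ≤ C := hmk.trans hkC
  have hw0 : ∀ (e : G.edgeSet) A, 0 ≤ wp C m ε (L₀ e) A := by
    intro e A
    unfold wp
    have := wu_nonneg C m A
    have h2 : (0 : ℝ) ≤ if A = L₀ e then 1 else 0 := by split_ifs <;> norm_num
    have h3 : 0 ≤ 1 - ε := by linarith
    positivity
  have hw1 : ∀ e : G.edgeSet, ∑ A, wp C m ε (L₀ e) A = 1 := by
    intro e
    unfold wp
    rw [Finset.sum_add_distrib, ← Finset.mul_sum, ← Finset.mul_sum, wu_sum hmC]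
    simp
  by_cases hE : Nonempty G.edgeSet
  swap
  · have h1 : ∀ L : G.edgeSet → Finset (Fin C), Col G L := fun L =>
      ⟨fun e => (hE ⟨e⟩).elim, fun e => (hE ⟨e⟩).elim, fun e => (hE ⟨e⟩).elim⟩
    have h2 : (fun L : G.edgeSet → Finset (Fin C) => if Col G L then (0 : ℝ) else 1) =
        fun _ => 0 := by
      funext L
      rw [if_pos (h1 L)]
    rw [h2, Ex_const hw1]
    positivity
  obtain ⟨e₀⟩ := hE
  have hn2 : 2 ≤ Fintype.card V := by
    obtain ⟨e, he⟩ := e₀
    induction e using Sym2.ind with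
    | _ a b =>
      have : 1 < Fintype.card V := Fintype.one_lt_card_iff.2 ⟨a, b, SimpleGraph.Adj.ne he⟩
      omega
  have hn2' : (2 : ℝ) ≤ Fintype.card V := by exact_mod_cast hn2
  have hl0 : 0 < Real.log (Fintype.card V) := Real.log_pos (by linarith)
  have hk0 : 0 < k := by
    obtain ⟨c⟩ := hcol
    exact (c e₀).pos
  have hC0 : 0 < C := by omega
  have hC : (0 : ℝ) < C := by exact_mod_cast hC0
  have hmCr : (m : ℝ) ≤ C := by exact_mod_cast hmC
  have hCm : (0 : ℝ) < C - m := by
    rcases eq_or_lt_of_le hmCr with h | h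
    · exfalso
      rw [h, sub_self] at hc2
      have h1 : 0 < K * (C : ℝ) ^ 5 * Real.log (Fintype.card V) := by positivity
      norm_num at hc2
      linarith
    · linarith
  refine hmain V G k C m hmk hkC hcol _ hw0 hw1 ?_ (ε * ((C - m) / C)) (by positivity) ?_ ?_ ?_
  · intro e A hA
    by_contra hne
    apply hA
    unfold wp wu
    rw [if_neg hne, if_neg]
    · simp
    · intro h
      exact hne (h ▸ hL₀ e)
  · intro e a
    unfold wp
    have h1 : ∀ A : Finset (Fin C), (if a ∉ A then (1 - ε) * (if A = L₀ e then (1 : ℝ) else 0) +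
        ε * wu C m A else 0) = (if a ∉ A then (1 - ε) * (if A = L₀ e then (1 : ℝ) else 0) else 0) +
        ε * (if a ∉ A then wu C m A else 0) := by
      intro A
      split_ifs <;> ring
    simp only [h1]
    rw [Finset.sum_add_distrib, ← Finset.mul_sum, wu_notMem hmC]
    have h2 : 0 ≤ ∑ A : Finset (Fin C), (if a ∉ A then
        (1 - ε) * (if A = L₀ e then (1 : ℝ) else 0) else 0) := by
      refine Finset.sum_nonneg fun A _ => ?_
      have h3 : 0 ≤ 1 - ε := by linarith
      split_ifs <;> simp [h3]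
    linarith
  · have e1 : (k : ℝ) * m * (ε * ((C - m) / C)) ^ 2 = k * m * ε ^ 2 * (C - m) ^ 2 / C ^ 2 := by
      field_simp
    rw [e1, le_div_iff₀ (by positivity)]
    have e2 : 16 * (C : ℝ) * (k - m) * C ^ 2 = 16 * C ^ 3 * (k - m) := by ring
    rw [e2]
    exact hc1
  · have e1 : (k : ℝ) ^ 3 * (ε * ((C - m) / C)) ^ 4 =
        (ε ^ 4 * k ^ 3 * (C - m) ^ 3) * (C - m) / C ^ 4 := by
      field_simp
    rw [e1, le_div_iff₀ (by positivity)]
    have e2 : K * C * (C - m) * Real.log (Fintype.card V) * C ^ 4 =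
        (K * C ^ 5 * Real.log (Fintype.card V)) * (C - m) := by ring
    rw [e2]
    exact mul_le_mul_of_nonneg_right hc2 hCm.le

open Classical in
/-- **Uniformly random lists** -/
theorem unif_main : ∃ K : ℝ, 1 ≤ K ∧ ∀ (V : Type) [Fintype V] (G : SimpleGraph V)
    [Fintype G.edgeSet] [DecidableEq G.edgeSet] (k C : ℕ), k ≤ C → G.lineGraph.Colorable k →
    K * Real.log (Fintype.card V) ≤ k →
    K * k ^ 2 * Real.log (Fintype.card V) ≤ ((C : ℝ) - k) ^ 3 →
    Ex (fun _ : G.edgeSet => wu C k) (fun L => if Col G L then 0 else 1) ≤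
      1 / Fintype.card V := by
  obtain ⟨K, hK, hmain⟩ := pert_main
  refine ⟨1024 * K, by linarith, ?_⟩
  intro V _ G _ _ k C hkC hcol hc1 hc2
  have hw1 : ∀ e : G.edgeSet, ∑ A, (fun _ : G.edgeSet => wu C k) e A = 1 := fun e => wu_sum hkC
  by_cases hE : Nonempty G.edgeSet
  swap
  · have h1 : ∀ L : G.edgeSet → Finset (Fin C), Col G L := fun L =>
      ⟨fun e => (hE ⟨e⟩).elim, fun e => (hE ⟨e⟩).elim, fun e => (hE ⟨e⟩).elim⟩
    have h2 : (fun L : G.edgeSet → Finset (Fin C) => if Col G L then (0 : ℝ) else 1) =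
        fun _ => 0 := by
      funext L
      rw [if_pos (h1 L)]
    rw [h2, Ex_const hw1]
    positivity
  obtain ⟨e₀⟩ := hE
  have hn2 : 2 ≤ Fintype.card V := by
    obtain ⟨e, he⟩ := e₀
    induction e using Sym2.ind with
    | _ a b =>
      have : 1 < Fintype.card V := Fintype.one_lt_card_iff.2 ⟨a, b, SimpleGraph.Adj.ne he⟩
      omega
  have hn2' : (2 : ℝ) ≤ Fintype.card V := by exact_mod_cast hn2
  have hnpos : (0 : ℝ) < Fintype.card V := by linarith
  set l := Real.log (Fintype.card V) with hl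
  have hl0 : 0 < l := Real.log_pos (by linarith)
  have hk0 : 0 < k := by
    obtain ⟨c⟩ := hcol
    exact (c e₀).pos
  have hk : (0 : ℝ) < k := by exact_mod_cast hk0
  have hkCr : (k : ℝ) ≤ C := by exact_mod_cast hkC
  have hC0 : 0 < C := by omega
  have hC : (0 : ℝ) < C := by exact_mod_cast hC0
  by_cases h4 : C ≤ 4 * k
  · -- perturbation with `ε = 1`
    obtain ⟨A₀, hA₀⟩ : ∃ A : Finset (Fin C), A.card = k := by
      obtain ⟨A, _, hA⟩ := Finset.exists_subset_card_eq
        (show k ≤ (Finset.univ : Finset (Fin C)).card by simpa using hkC)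
      exact ⟨A, hA⟩
    have h5 := hmain V G k C k le_rfl hkC hcol (fun _ => A₀) (fun _ => hA₀) 1 one_pos le_rfl
      (by
        rw [sub_self, mul_zero]
        positivity)
      (by
        have h6 : (C : ℝ) ≤ 4 * k := by exact_mod_cast h4
        have h7 : (C : ℝ) ^ 5 ≤ (4 * k) ^ 5 := pow_le_pow_left₀ hC.le h6 5
        have h8 : K * (C : ℝ) ^ 5 * l ≤ K * (4 * k) ^ 5 * l :=
          mul_le_mul_of_nonneg_right (mul_le_mul_of_nonneg_left h7 (by linarith)) hl0.le
        have h9 : K * (4 * (k : ℝ)) ^ 5 * l = k ^ 3 * (1024 * K * k ^ 2 * l) := by ring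
        have h10 : (k : ℝ) ^ 3 * (1024 * K * k ^ 2 * l) ≤ k ^ 3 * (C - k) ^ 3 :=
          mul_le_mul_of_nonneg_left hc2 (by positivity)
        linarith)
    have h6 : (fun e : G.edgeSet => wp C k 1 A₀) = fun _ : G.edgeSet => wu C k := by
      funext e A
      unfold wp
      ring
    rw [h6] at h5
    exact h5
  · -- greedy
    obtain ⟨c⟩ := hcol
    have hc : ∀ e e', G.lineGraph.Adj e e' → c e ≠ c e' := fun e e' h => c.valid h
    push Not at h4
    have h4' : 4 * (k : ℝ) ≤ C := by
      have : 4 * k ≤ C := by omega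
      exact_mod_cast this
    have h5 := greedy G k C hkC c hc (fun _ => wu C k) (fun _ A => wu_nonneg C k A) hw1
      ((1 / 2) ^ k) (by
        intro e U hU
        refine (wu_subset hkC hC0 U).trans ?_
        apply pow_le_pow_left₀ (by positivity)
        rw [div_le_iff₀ hC]
        have : (U.card : ℝ) ≤ 2 * k := by exact_mod_cast hU
        linarith) Finset.univ
    have h6 : (fun L : G.edgeSet → Finset (Fin C) => if ColT Finset.univ L then (0 : ℝ) else 1) =
        fun L => if Col G L then 0 else 1 := by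
      funext L
      have : ColT Finset.univ L ↔ Col G L := by
        constructor
        · rintro ⟨f, h1, h2⟩
          exact ⟨f, fun e => h1 e (Finset.mem_univ _),
            fun e e' => h2 e (Finset.mem_univ _) e' (Finset.mem_univ _)⟩
        · rintro ⟨f, h1, h2⟩
          exact ⟨f, fun e _ => h1 e, fun e _ e' _ => h2 e e'⟩
      by_cases h : Col G L
      · rw [if_pos h, if_pos (this.2 h)]
      · rw [if_neg h, if_neg (fun h' => h (this.1 h'))]
    rw [h6] at h5
    refine h5.trans ?_
    rw [Finset.card_univ]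
    have h7 := edge_card G
    have h8 : ((1 : ℝ) / 2) ^ k ≤ ((Fintype.card V : ℝ) ^ 3)⁻¹ := by
      have h9 : ((1 : ℝ) / 2) ^ k = Real.exp (-(k * Real.log 2)) := by
        rw [Real.exp_neg, Real.exp_nat_mul, Real.exp_log (by norm_num), one_div, inv_pow]
      have h10 : ((Fintype.card V : ℝ) ^ 3)⁻¹ = Real.exp (-(3 * l)) := by
        rw [Real.exp_neg, hl, show 3 * Real.log (Fintype.card V) =
          Real.log ((Fintype.card V : ℝ) ^ 3) from by rw [Real.log_pow]; norm_num,
          Real.exp_log (by positivity)]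
      rw [h9, h10]
      apply Real.exp_le_exp.2
      apply neg_le_neg
      have h11 := Real.log_two_gt_d9
      have h12 : 1024 * l ≤ k := by
        have : 1024 * l ≤ 1024 * K * l := by nlinarith
        linarith
      nlinarith
    calc (Fintype.card G.edgeSet : ℝ) * (1 / 2) ^ k
        ≤ (Fintype.card V : ℝ) ^ 2 / 2 * ((Fintype.card V : ℝ) ^ 3)⁻¹ :=
          mul_le_mul h7 h8 (by positivity) (by positivity)
      _ = 1 / Fintype.card V / 2 := by field_simp
      _ ≤ 1 / Fintype.card V := by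
          have : 0 < 1 / (Fintype.card V : ℝ) := by positivity
          linarith

end Pool.Agent.J4.H80.LL
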